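import Pool.Agent.KS6_11.E.Fam

set_option autoImplicit false
set_option linter.unusedVariables false
set_option linter.unusedSectionVars false
set_option linter.unusedSimpArgs false

/-!
# Elements of the Lie algebra concentrated in the block of one curve
-/

open Matrix Module

noncomputable section

namespace Pool.Agent.KS6_11.E

open Pool.Agent.W516.DR Pool.Agent.W245.EB Pool.Agent.Y102
open Pool.Agent.TH127.PT Pool.Agent.TH119.DR Pool.Agent.Y123.ST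
open Pool.Agent.TH119.MX (Per LT br mp lam M2 Leg q0 q0_of_trace se sf sh tr_se tr_sf tr_sh decomp sh_sq)
open Pool.Agent.X306.EM (QB_iff QQ mem_QQ QQ_le)
open Pool.Agent.X306.RL (LL_br derD LL_defF GDef)
open Pool.Agent.X306.MT
open Pool.Agent.X306.MZ (InK)
open Pool.Agent.X306.CV hiding Elt EE EE.add EE.smul EE.op EE.poly rho_lead raise top_elt mm mm_br mm_full all_mem main
open Pool.Agent.KS6_11.G (Ar Fn lkO Lk_O Lk)

/-- the elements with trivial action on the generators have positive degree -/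
theorem ar_pos {B R I : Type} [Fintype B] [DecidableEq B] [Fintype R] [DecidableEq R]
    [Fintype I] [DecidableEq I] {d : B → ℕ} {o : B} {N : I → Matrix B B ℂ} {C : Matrix B B ℂ} {NB : I → Matrix B B ℂ}
    {P P' : Matrix I I ℂ} (H : Fn d o N NB C P P') {y : R → I → ℂ} {Y : Matrix B B ℂ} {V : R → Matrix B B ℂ}
    (h : Ar d o C N NB 0 y Y V) : Y ∈ Ge d 1 := by
  have hcom : ∀ j, pr d 0 Y * NB j = NB j * pr d 0 Y := by
    intro j
    have h1 := com_pr H.hNB h.low h.com (Pi.single j 1)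
    rw [nbv_single, Matrix.vecMul_zero, nbv_zero, add_zero] at h1
    exact sub_eq_zero.1 h1
  have h0 : pr d 0 Y = 0 := by
    refine Wd_all H.hNB H.dgo H.uni H.gen (pr_Gr 0 Y) (fun b hb => ?_) hcom
    rw [pr_apply]
    split_ifs
    · exact h.ori b hb
    · rfl
  have h1 := sub_pr0 h.low
  rw [h0, sub_zero] at h1
  exact h1

variable {M C : Type} [Fintype M] [DecidableEq M] [Fintype C] [DecidableEq C] {R B : C → Type} [∀ c, Fintype (R c)]
  [∀ c, DecidableEq (R c)] [∀ c, Fintype (B c)] [∀ c, DecidableEq (B c)]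

variable {T : Set (Matrix (Nf M B R) (Nf M B R) ℂ)} {d : ∀ c, B c → ℕ} {o : ∀ c, B c}
    {Cc : ∀ c, Matrix (B c) (B c) ℂ} {N NB : ∀ c, Fin 2 → Matrix (B c) (B c) ℂ} {C₀ : Matrix M M ℂ}
    {D : Per C R Empty} {ell : ∀ c, R c → Matrix (B c) (B c) ℂ}

/-- elements with components of degree at least `k` in the other blocks -/
def Uk (T : Set (Matrix (Nf M B R) (Nf M B R) ℂ)) (d : ∀ c, B c → ℕ) (o : ∀ c, B c)
    (Cc : ∀ c, Matrix (B c) (B c) ℂ) (N NB : ∀ c, Fin 2 → Matrix (B c) (B c) ℂ) (c₀ : C) (k : ℕ) (X : M2)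
    (y : Matrix (R c₀) (Fin 2) ℂ) : Prop :=
  ∃ (Y : ∀ c, Matrix (B c) (B c) ℂ) (V : ∀ c, R c → Matrix (B c) (B c) ℂ), fl (Wf (0 : Matrix M M ℂ) Y V) ∈ LL T ∧
    Ar (d c₀) (o c₀) (Cc c₀) (N c₀) (NB c₀) X (fun r => y r) (Y c₀) (V c₀) ∧ lkO (d c₀) (0 : Matrix M M ℂ) (Y c₀) ∧
    ∀ c, c ≠ c₀ → Y c ∈ Ge (d c) k ∧ ∀ r, V c r ∈ Ge (d c) k

variable {c₀ : C} {k : ℕ} {X X' : M2} {y y' : Matrix (R c₀) (Fin 2) ℂ}

theorem Uk.add (h : Uk T d o Cc N NB c₀ k X y) (h' : Uk T d o Cc N NB c₀ k X' y') :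
    Uk T d o Cc N NB c₀ k (X + X') (y + y') := by
  obtain ⟨Y, V, h1, h2, h3, h4⟩ := h
  obtain ⟨Y', V', h1', h2', h3', h4'⟩ := h'
  refine ⟨Y + Y', V + V', ?_, h2.add h2', fun b b' hb => ?_, fun c hc => ⟨?_, fun r => ?_⟩⟩
  · have e := Wf_add (0 : Matrix M M ℂ) 0 Y Y' V V'
    rw [add_zero] at e
    rw [e, fl_add]
    exact (LL T).add_mem h1 h1'
  · rw [Pi.add_apply, Matrix.add_apply, h3 b b' hb, h3' b b' hb, add_zero]
  · exact (Ge (d c) k).add_mem (h4 c hc).1 (h4' c hc).1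
  · exact (Ge (d c) k).add_mem ((h4 c hc).2 r) ((h4' c hc).2 r)

theorem Uk.smul (a : ℂ) (h : Uk T d o Cc N NB c₀ k X y) : Uk T d o Cc N NB c₀ k (a • X) (a • y) := by
  obtain ⟨Y, V, h1, h2, h3, h4⟩ := h
  refine ⟨a • Y, a • V, ?_, h2.smul a, fun b b' hb => ?_, fun c hc => ⟨?_, fun r => ?_⟩⟩
  · have e := Wf_smul a (0 : Matrix M M ℂ) Y V
    rw [smul_zero] at e
    rw [e, fl_smul]
    exact (LL T).smul_mem a h1
  · rw [Pi.smul_apply, Matrix.smul_apply, h3 b b' hb, smul_zero]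
  · exact (Ge (d c) k).smul_mem a (h4 c hc).1
  · exact (Ge (d c) k).smul_mem a ((h4 c hc).2 r)

theorem Uk.br (H : ∀ c, Fn (d c) (o c) (N c) (NB c) (Cc c) (D.P c) (D.P' c)) (h : Uk T d o Cc N NB c₀ k X y)
    (h' : Uk T d o Cc N NB c₀ 1 X' y') :
    Uk T d o Cc N NB c₀ (k + 1) (X * X' - X' * X) (y * X' - y' * X) := by
  obtain ⟨Y, V, h1, h2, h3, h4⟩ := h
  obtain ⟨Y', V', h1', h2', h3', h4'⟩ := h'
  refine ⟨fun c => Y c * Y' c - Y' c * Y c, bV Y Y' V V', ?_, h2.br (H c₀).bi (H c₀).hN h2', fun b b' hb => ?_,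
    fun c hc => ⟨?_, fun r => ?_⟩⟩
  · have e := Wf_br (0 : Matrix M M ℂ) 0 Y Y' V V'
    rw [Matrix.zero_mul, sub_zero] at e
    rw [← e]
    exact LL_br h1 h1'
  · change (Y c₀ * Y' c₀ - Y' c₀ * Y c₀) b b' = 0
    rw [Matrix.sub_apply, Pool.Agent.KS6_11.G.lkO_mul h2.low h2'.low h3 h3' 0 b b' hb,
      Pool.Agent.KS6_11.G.lkO_mul h2'.low h2.low h3' h3 0 b b' hb, sub_zero]
  · exact Ge_br (h4 c hc).1 (h4' c hc).1
  · have e1 : Y c * V' c r - V' c r * Y c ∈ Ge (d c) (k + 1) := Ge_br (h4 c hc).1 ((h4' c hc).2 r)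
    have e2 : Y' c * V c r - V c r * Y' c ∈ Ge (d c) (k + 1) := by
      have := Ge_br (h4' c hc).1 ((h4 c hc).2 r)
      rwa [add_comm] at this
    have e3 : V c r * V' c r - V' c r * V c r ∈ Ge (d c) (k + 1) := Ge_br ((h4 c hc).2 r) ((h4' c hc).2 r)
    exact (Ge (d c) (k + 1)).add_mem ((Ge (d c) (k + 1)).sub_mem e1 e2) e3

section

variable (H : ∀ c, Fn (d c) (o c) (N c) (NB c) (Cc c) (D.P c) (D.P' c)) (hcd : Cd C₀ D (Lf T d o Cc N NB))
  (hK : ∀ x : C → M2, (∀ c, (x c).trace = 0) → ∀ b : (c : C) → Matrix (R c) (Fin 2) ℂ,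
    ((x, b, 0, 0) : LT C R Empty) ∈ Kn C₀ D)

include H hcd hK

theorem uk_one (c₀ : C) {X : M2} (hX : X.trace = 0) (y : Matrix (R c₀) (Fin 2) ℂ) : Uk T d o Cc N NB c₀ 1 X y := by
  have h1 := hK (Pi.single c₀ X) (fun c => by
    by_cases h : c = c₀
    · subst h
      rw [Pi.single_eq_same, hX]
    · rw [Pi.single_eq_of_ne h, Matrix.trace_zero]) (Pi.single c₀ y)
  obtain ⟨Y, V, h2⟩ := Mn_le hcd (mem_Kn.1 h1)
  refine ⟨Y, V, h2.mem, ?_, h2.lnk c₀, fun c hc => ?_⟩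
  · have h3 := h2.ar c₀
    change Ar (d c₀) (o c₀) (Cc c₀) (N c₀) (NB c₀) (Pi.single (M := fun _ : C => M2) c₀ X c₀)
      (fun r => (Pi.single (M := fun c : C => Matrix (R c) (Fin 2) ℂ) c₀ y c₀) r) (Y c₀) (V c₀) at h3
    rw [Pi.single_eq_same, Pi.single_eq_same] at h3
    exact h3
  · have h3 := h2.ar c
    change Ar (d c) (o c) (Cc c) (N c) (NB c) (Pi.single (M := fun _ : C => M2) c₀ X c)
      (fun r => (Pi.single (M := fun c : C => Matrix (R c) (Fin 2) ℂ) c₀ y c) r) (Y c) (V c) at h3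
    rw [Pi.single_eq_of_ne hc, Pi.single_eq_of_ne hc] at h3
    refine ⟨ar_pos (H c) h3, fun r => ?_⟩
    have h4 := h3.two r
    have h5 : nbv (NB c) ((0 : Matrix (R c) (Fin 2) ℂ) r) = 0 := nbv_zero _
    rw [h5, sub_zero] at h4
    exact Ge_mono (by omega) h4

theorem uk_all (c₀ : C) (k : ℕ) : ∀ {X : M2}, X.trace = 0 → ∀ y : Matrix (R c₀) (Fin 2) ℂ,
    Uk T d o Cc N NB c₀ (k + 1) X y := by
  induction k with
  | zero => exact fun hX y => uk_one H hcd hK c₀ hX y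
  | succ k ih =>
    intro X hX y
    have h1 := ((ih tr_se 0).br H (uk_one H hcd hK c₀ tr_sf 0)).smul (X 0 0)
    have h2 := ((ih tr_sh 0).br H (uk_one H hcd hK c₀ tr_se 0)).smul (X 0 1 / 2)
    have h3 := ((ih tr_sh 0).br H (uk_one H hcd hK c₀ tr_sf 0)).smul (-(X 1 0 / 2))
    have h4 := (ih (X := 0) (Matrix.trace_zero _ _) (y * sh)).br H (uk_one H hcd hK c₀ tr_sh 0)
    have h5 := ((h1.add h2).add h3).add h4
    have e1 : X 0 0 • (se * sf - sf * se) + (X 0 1 / 2) • (sh * se - se * sh) + (-(X 1 0 / 2)) • (sh * sf - sf * sh) +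
        ((0 : M2) * sh - sh * 0) = X := by
      rw [← decomp hX, Matrix.zero_mul, Matrix.mul_zero, sub_zero, add_zero]
    refine (congrArg₂ (Uk T d o Cc N NB c₀ (k + 1 + 1)) e1 ?_).mp h5
    rw [Matrix.mul_assoc y, sh_sq, Matrix.mul_one]
    simp

/-- **Concentrated elements.** -/
theorem conc (c₀ : C) {X : M2} (hX : X.trace = 0) (y : Matrix (R c₀) (Fin 2) ℂ) :
    ∃ Y V, fl (Wf (0 : Matrix M M ℂ) (Pi.single c₀ Y) (Pi.single c₀ V)) ∈ LL T ∧
      Ar (d c₀) (o c₀) (Cc c₀) (N c₀) (NB c₀) X (fun r => y r) Y V ∧ lkO (d c₀) (0 : Matrix M M ℂ) Y := by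
  obtain ⟨Y, V, h1, h2, h3, h4⟩ := uk_all H hcd hK c₀ (Finset.univ.sup fun c => top (d c)) hX y
  refine ⟨Y c₀, V c₀, ?_, h2, h3⟩
  have e1 : Y = Pi.single c₀ (Y c₀) := by
    funext c
    by_cases hc : c = c₀
    · subst hc
      rw [Pi.single_eq_same]
    · rw [Pi.single_eq_of_ne hc]
      refine Ge_top ?_ (h4 c hc).1
      have := Finset.le_sup (f := fun c => top (d c)) (Finset.mem_univ c)
      omega
  have e2 : V = Pi.single c₀ (V c₀) := by
    funext c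
    by_cases hc : c = c₀
    · subst hc
      rw [Pi.single_eq_same]
    · rw [Pi.single_eq_of_ne hc]
      funext r
      refine Ge_top ?_ ((h4 c hc).2 r)
      have := Finset.le_sup (f := fun c => top (d c)) (Finset.mem_univ c)
      omega
  rw [← e1, ← e2]
  exact h1

end

end Pool.Agent.KS6_11.E
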