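import Pool.Agent.KS6_11.S.Glue

set_option autoImplicit false
set_option linter.unusedVariables false
set_option linter.unusedSectionVars false

/-!
# Subspaces which are stable under derivations are defined over the algebraic numbers
-/

open Matrix Module

noncomputable section

namespace Pool.Agent.KS6_11.E

open Pool.Agent.TH119.DR Pool.Agent.TH119.MX Pool.Agent.X306.EM Pool.Agent.X306.RL W245.EB

/-- the support -/
def sup {α : Type} [Fintype α] [DecidableEq α] (w : α → ℂ) : Finset α := Finset.univ.filter fun a => w a ≠ 0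

theorem mem_sup {α : Type} [Fintype α] [DecidableEq α] {w : α → ℂ} {a : α} : a ∈ sup w ↔ w a ≠ 0 := by
  unfold sup
  rw [Finset.mem_filter]
  exact ⟨fun h => h.2, fun h => ⟨Finset.mem_univ _, h⟩⟩

/-- **Subspaces stable under derivations.** -/
theorem dst {α : Type} [Fintype α] [DecidableEq α] (W : Submodule ℂ (α → ℂ))
    (h : ∀ δ : Derivation ℚ ℂ ℂ, ∀ w ∈ W, (fun a => δ (w a)) ∈ W) : DefOver QB W := by
  obtain ⟨W₀, hW₀⟩ : ∃ W₀, W₀ = Submodule.span ℂ {w | w ∈ W ∧ ∀ a, w a ∈ QB} := ⟨_, rfl⟩
  have hle : W₀ ≤ W := by
    rw [hW₀]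
    exact Submodule.span_le.2 fun w hw => hw.1
  have hdef : DefOver QB W₀ := by
    intro w hw
    rw [hW₀] at hw
    refine Submodule.span_mono ?_ hw
    rintro v ⟨h1, h2⟩
    refine ⟨?_, h2⟩
    rw [hW₀]
    exact Submodule.subset_span ⟨h1, h2⟩
  have key : ∀ n : ℕ, ∀ w ∈ W, (sup w).card ≤ n → w ∈ W₀ := by
    intro n
    induction n with
    | zero =>
      intro w hw hn
      have h1 : w = 0 := by
        funext a
        by_contra h2
        have h3 : a ∈ sup w := mem_sup.2 h2
        have h4 := Finset.card_pos.2 ⟨a, h3⟩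
        omega
      rw [h1]
      exact W₀.zero_mem
    | succ n ih =>
      intro w hw hn
      by_cases hw0 : w = 0
      · rw [hw0]
        exact W₀.zero_mem
      obtain ⟨a, ha⟩ : ∃ a, w a ≠ 0 := by
        by_contra hcon
        push Not at hcon
        exact hw0 (funext hcon)
      obtain ⟨w', hw'⟩ : ∃ w', w' = (w a)⁻¹ • w := ⟨_, rfl⟩
      have hw'a : w' a = 1 := by
        rw [hw', Pi.smul_apply, smul_eq_mul, inv_mul_cancel₀ ha]
      have hw'W : w' ∈ W := by
        rw [hw']
        exact W.smul_mem _ hw
      have hback : w = w a • w' := by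
        rw [hw', smul_smul, mul_inv_cancel₀ ha, one_smul]
      have hzero : ∀ c, w c = 0 → w' c = 0 := by
        intro c hc
        rw [hw', Pi.smul_apply, hc, smul_zero]
      suffices hs : w' ∈ W₀ by
        rw [hback]
        exact W₀.smul_mem _ hs
      by_cases hδ : ∀ δ : Derivation ℚ ℂ ℂ, ∀ c, δ (w' c) = 0
      · rw [hW₀]
        refine Submodule.subset_span ⟨hw'W, fun c => ?_⟩
        rw [← QB_iff]
        by_contra hcon
        obtain ⟨δ, hd⟩ := exists_deriv hcon
        exact hd (hδ δ c)
      · push Not at hδ
        obtain ⟨δ, b, hb⟩ := hδ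
        have hvW := h δ w' hw'W
        have hsupv : sup (fun c => δ (w' c)) ⊆ (sup w).erase a := by
          intro c hc
          rw [mem_sup] at hc
          rw [Finset.mem_erase, mem_sup]
          refine ⟨?_, fun h2 => hc ?_⟩
          · rintro rfl
            apply hc
            rw [hw'a, Derivation.map_one_eq_zero]
          · rw [hzero c h2, map_zero]
        have haw : a ∈ sup w := mem_sup.2 ha
        have hcard : ((sup w).erase a).card ≤ n := by
          rw [Finset.card_erase_of_mem haw]
          omega
        have hv := ih _ hvW ((Finset.card_le_card hsupv).trans hcard)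
        obtain ⟨φ, hφ⟩ : ∃ φ : Module.Dual QB ℂ, φ (δ (w' b)) ≠ 0 := by
          by_contra hcon
          push Not at hcon
          exact hb ((Module.forall_dual_apply_eq_zero_iff QB _).1 hcon)
        let f : ℂ →ₗ[QB] ℂ := (Algebra.linearMap QB ℂ) ∘ₗ φ
        have hf : ∀ z, f z = (φ z : ℂ) := fun z => rfl
        have hu := hdef.map f hv
        have hub : f (δ (w' b)) ≠ 0 := by
          rw [hf]
          intro h2
          exact hφ (Subtype.ext h2)
        have hwb : w b ≠ 0 := by
          intro h2
          apply hb
          rw [hzero b h2, map_zero]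
        have h1 : w' - (w' b / f (δ (w' b))) • (fun c => f (δ (w' c))) ∈ W₀ := by
          refine ih _ (W.sub_mem hw'W (W.smul_mem _ (hle hu))) ?_
          have hsub : sup (w' - (w' b / f (δ (w' b))) • (fun c => f (δ (w' c)))) ⊆ (sup w).erase b := by
            intro c hc
            rw [mem_sup] at hc
            rw [Finset.mem_erase, mem_sup]
            refine ⟨?_, fun h2 => hc ?_⟩
            · rintro rfl
              apply hc
              rw [Pi.sub_apply, Pi.smul_apply, smul_eq_mul, div_mul_cancel₀ _ hub, sub_self]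
            · rw [Pi.sub_apply, Pi.smul_apply, hzero c h2, map_zero, map_zero, smul_zero, sub_zero]
          refine (Finset.card_le_card hsub).trans ?_
          rw [Finset.card_erase_of_mem (mem_sup.2 hwb)]
          omega
        have h2 := W₀.add_mem h1 (W₀.smul_mem (w' b / f (δ (w' b))) hu)
        rwa [sub_add_cancel] at h2
  intro w hw
  have h1 := key _ w hw le_rfl
  rwa [hW₀] at h1

end Pool.Agent.KS6_11.E
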