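import Pool.Agent.KS6_11.E.Full
import Pool.Agent.KS6_11.G.Loop

set_option autoImplicit false
set_option linter.unusedVariables false
set_option linter.unusedSectionVars false
set_option linter.unusedSimpArgs false

/-!
# Families of unipotent objects over elliptic curves
-/

open Matrix Module

noncomputable section

namespace Pool.Agent.KS6_11.E

open Pool.Agent.W516.DR Pool.Agent.W245.EB Pool.Agent.Y102
open Pool.Agent.TH127.PT Pool.Agent.TH119.DR Pool.Agent.Y123.ST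
open Pool.Agent.TH119.MX (Per LT br mp lam M2 Leg)
open Pool.Agent.X306.EM (QB_iff QQ mem_QQ QQ_le)
open Pool.Agent.X306.RL (LL_br derD LL_defF GDef)
open Pool.Agent.X306.MT
open Pool.Agent.X306.MZ (InK)
open Pool.Agent.X306.CV hiding Elt EE EE.add EE.smul EE.op EE.poly rho_lead raise top_elt mm mm_br mm_full all_mem main
open Pool.Agent.KS6_11.G (Ar Fn lkO Lk_O Lk)

section block

variable {B R I : Type} [Fintype B] [DecidableEq B] [Fintype R] [DecidableEq R]
  [Fintype I] [DecidableEq I]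
  {d : B → ℕ} {o : B} {N : I → Matrix B B ℂ} {C : Matrix B B ℂ} {NB : I → Matrix B B ℂ} {P P' : Matrix I I ℂ}
  {l : R → I → ℂ} {ell : R → Matrix B B ℂ}

theorem qt_map {f : ℂ → ℂ} (hf : f 0 = 0) (hf' : ∀ a b, f (a + b) = f a + f b) (Y : Matrix B B ℂ) (V : R → Matrix B B ℂ) :
    (qt Y V).map f = qt (Y.map f) (fun r => (V r).map f) := by
  unfold qt
  rw [fromBlocks_map, blockDiagonal_map _ _ hf, Matrix.map_zero _ hf, Matrix.map_zero _ hf]
  congr 2
  funext r
  ext b b'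
  exact hf' _ _

/-- the logarithmic derivatives of one block -/
theorem der_ar (H : Fn d o N NB C P P') (hell : ∀ r, ell r ∈ nn N) (hell1 : ∀ r, ell r - nbv N (l r) ∈ Ge d 2)
    (D : Derivation QBar ℂ ℂ) :
    Ar d o C N NB (P.map D * P') (fun r => (fun i => D (l r i)) ᵥ* P') (C.map D * C⁻¹)
      (fun r => C * ((ex d (ell r)).map D * ex d (-ell r)) * C⁻¹) := by
  set D' : Derivation ℚ ℂ ℂ := D.restrictScalars ℚ with hD'
  have hmap : ∀ X : Matrix B B ℂ, X.map D = X.map D' := fun X => rfl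
  have hb := H.bi
  have hDell : ∀ r, (ell r).map D' ∈ nn N := fun r => nn_der D' (fun s b b' => D_alg D (H.alg s b b')) (hell r)
  have hX := fun r => ex_der H.hN D' (hell r) (hDell r)
  refine ⟨Nor_der hb H.alg H.bet (fun x hx => ?_) D, fun r => conj_nB hb (hX r).1, ?_, fun b h => ?_, H.der_com D,
    fun r => ?_⟩
  · obtain ⟨q, rfl⟩ := mem_QQ.1 hx
    exact (QB_iff _).1 (isAlgebraic_algebraMap (R := ℚ) (A := ℂ) q)
  · have h3 := Ge_mul (map_Ge_D D H.low) hb.m'
    rw [add_zero] at h3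
    exact h3
  · rw [Matrix.mul_apply]
    refine Finset.sum_eq_zero fun c _ => ?_
    rw [Matrix.map_apply]
    by_cases hc : d c = 0
    · rw [H.uni c hc, H.coo, Derivation.map_one_eq_zero, zero_mul]
    · rw [hb.m' c b (by omega), mul_zero]
  · have h1 := hb.conj_mem ((hX r).2)
    have h2 : (ell r).map D' - nbv N (fun i => D (l r i)) ∈ Ge d 2 := by
      have h3 := map_Ge_D D (hell1 r)
      refine (congrArg (· ∈ Ge d 2) ?_).mp h3
      ext b b'
      unfold nbv
      rw [Matrix.map_apply, Matrix.sub_apply, Matrix.sub_apply, Matrix.sum_apply, Matrix.sum_apply, map_sub, map_sum]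
      congr 1
      refine Finset.sum_congr rfl fun s _ => ?_
      rw [Matrix.smul_apply, Matrix.smul_apply, smul_eq_mul, smul_eq_mul, Derivation.leibniz, D_alg D (H.alg s b b'),
        smul_zero, zero_add, smul_eq_mul, mul_comm]
    have h3 := hb.conj_mem h2
    have h4 := H.conj_w (fun i => D (l r i))
    have h5 := (Ge d 2).add_mem ((Ge d 2).add_mem h1 h3) h4
    refine (congrArg (· ∈ Ge d 2) ?_).mp h5
    simp only [Matrix.mul_sub, Matrix.sub_mul, hmap]
    abel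

end block

/-- the derivation over the algebraic numbers -/
def dB (δ : Derivation ℚ ℂ ℂ) : Derivation QBar ℂ ℂ where
  toLinearMap :=
    { toFun := fun x => δ x
      map_add' := fun x y => map_add δ x y
      map_smul' := fun a x => by
        have h1 : IsAlgebraic ℚ (a : ℂ) := (QB_iff _).2 a.2
        change δ ((a : ℂ) * x) = (a : ℂ) * δ x
        rw [Derivation.leibniz, deriv_alg δ h1, smul_zero, add_zero, smul_eq_mul] }
  map_one_eq_zero' := δ.map_one_eq_zero
  leibniz' a b := δ.leibniz a b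

variable {M C : Type} [Fintype M] [DecidableEq M] [Fintype C] [DecidableEq C] {R B : C → Type} [∀ c, Fintype (R c)]
  [∀ c, DecidableEq (R c)] [∀ c, Fintype (B c)] [∀ c, DecidableEq (B c)]

/-- the index set of the block of a curve -/
abbrev Iy (B R : C → Type) (c : C) : Type := B c ⊕ (B c × R c)

/-- the index set -/
abbrev Nf (M : Type) (B R : C → Type) : Type := M ⊕ (Σ c, Iy B R c)

/-- the elements -/
def Wf (z : Matrix M M ℂ) (Y : ∀ c, Matrix (B c) (B c) ℂ) (V : ∀ c, R c → Matrix (B c) (B c) ℂ) :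
    Matrix (Nf M B R) (Nf M B R) ℂ := fromBlocks z 0 0 (blockDiagonal' fun c => qt (Y c) (V c))

theorem Wf_zero : Wf (0 : Matrix M M ℂ) (0 : ∀ c, Matrix (B c) (B c) ℂ) (0 : ∀ c, R c → Matrix (B c) (B c) ℂ) = 0 := by
  unfold Wf
  have h : (fun c : C => qt ((0 : ∀ c, Matrix (B c) (B c) ℂ) c) ((0 : ∀ c, R c → Matrix (B c) (B c) ℂ) c)) = 0 := by
    funext c
    exact qt_zero
  rw [h, blockDiagonal'_zero, fromBlocks_zero]

theorem Wf_add (z z' : Matrix M M ℂ) (Y Y' : ∀ c, Matrix (B c) (B c) ℂ) (V V' : ∀ c, R c → Matrix (B c) (B c) ℂ) :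
    Wf (z + z') (Y + Y') (V + V') = Wf z Y V + Wf z' Y' V' := by
  unfold Wf
  rw [fromBlocks_add, add_zero, add_zero, ← blockDiagonal'_add]
  congr 2
  funext c
  exact qt_add _ _ _ _

theorem Wf_smul (a : ℂ) (z : Matrix M M ℂ) (Y : ∀ c, Matrix (B c) (B c) ℂ) (V : ∀ c, R c → Matrix (B c) (B c) ℂ) :
    Wf (a • z) (a • Y) (a • V) = a • Wf z Y V := by
  unfold Wf
  rw [fromBlocks_smul, smul_zero, smul_zero, ← blockDiagonal'_smul]
  congr 2
  funext c
  exact qt_smul _ _ _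

/-- the components of the commutators -/
def bV (Y Y' : ∀ c, Matrix (B c) (B c) ℂ) (V V' : ∀ c, R c → Matrix (B c) (B c) ℂ) :
    ∀ c, R c → Matrix (B c) (B c) ℂ := fun c r =>
  (Y c * V' c r - V' c r * Y c) - (Y' c * V c r - V c r * Y' c) + (V c r * V' c r - V' c r * V c r)

theorem Wf_br (z z' : Matrix M M ℂ) (Y Y' : ∀ c, Matrix (B c) (B c) ℂ) (V V' : ∀ c, R c → Matrix (B c) (B c) ℂ) :
    Wf z Y V * Wf z' Y' V' - Wf z' Y' V' * Wf z Y V =
      Wf (z * z' - z' * z) (fun c => Y c * Y' c - Y' c * Y c) (bV Y Y' V V') := by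
  unfold Wf
  rw [fromBlocks_multiply, fromBlocks_multiply, ← blockDiagonal'_mul, ← blockDiagonal'_mul, sub_eq_add_neg,
    fromBlocks_neg, fromBlocks_add]
  simp only [Matrix.mul_zero, Matrix.zero_mul, add_zero, zero_add, neg_zero]
  rw [← sub_eq_add_neg, ← sub_eq_add_neg, ← blockDiagonal'_sub]
  congr 2
  funext c
  exact qt_br _ _ _ _

theorem Wf_map {f : ℂ → ℂ} (hf : f 0 = 0) (hf' : ∀ a b, f (a + b) = f a + f b) (z : Matrix M M ℂ)
    (Y : ∀ c, Matrix (B c) (B c) ℂ) (V : ∀ c, R c → Matrix (B c) (B c) ℂ) :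
    (Wf z Y V).map f = Wf (z.map f) (fun c => (Y c).map f) (fun c r => (V c r).map f) := by
  unfold Wf
  rw [fromBlocks_map, blockDiagonal'_map _ _ hf, Matrix.map_zero _ hf, Matrix.map_zero _ hf]
  congr 2
  funext c
  exact qt_map hf hf' _ _

/-- the elements with given components of degree at most one -/
structure Azf (T : Set (Matrix (Nf M B R) (Nf M B R) ℂ)) (d : ∀ c, B c → ℕ) (o : ∀ c, B c)
    (Cc : ∀ c, Matrix (B c) (B c) ℂ) (N NB : ∀ c, Fin 2 → Matrix (B c) (B c) ℂ) (z : Matrix M M ℂ)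
    (x : LT C R Empty) (Y : ∀ c, Matrix (B c) (B c) ℂ) (V : ∀ c, R c → Matrix (B c) (B c) ℂ) : Prop where
  mem : fl (Wf z Y V) ∈ LL T
  ar : ∀ c, Ar (d c) (o c) (Cc c) (N c) (NB c) (x.1 c) (fun r => x.2.1 c r) (Y c) (V c)
  lnk : ∀ c, lkO (d c) (0 : Matrix M M ℂ) (Y c)

variable {T : Set (Matrix (Nf M B R) (Nf M B R) ℂ)} {d : ∀ c, B c → ℕ} {o : ∀ c, B c}
    {Cc : ∀ c, Matrix (B c) (B c) ℂ} {N NB : ∀ c, Fin 2 → Matrix (B c) (B c) ℂ} {C₀ : Matrix M M ℂ}
    {D : Per C R Empty} {ell : ∀ c, R c → Matrix (B c) (B c) ℂ}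

/-- the space of the elements -/
def Lf (T : Set (Matrix (Nf M B R) (Nf M B R) ℂ)) (d : ∀ c, B c → ℕ) (o : ∀ c, B c)
    (Cc : ∀ c, Matrix (B c) (B c) ℂ) (N NB : ∀ c, Fin 2 → Matrix (B c) (B c) ℂ) :
    Submodule ℂ (Matrix M M ℂ × LT C R Empty) where
  carrier := {p | ∃ Y V, Azf T d o Cc N NB p.1 p.2 Y V}
  zero_mem' := by
    refine ⟨0, 0, ⟨?_, fun c => Ar.zero, fun c b b' _ => rfl⟩⟩
    change fl (Wf 0 0 0) ∈ LL T
    rw [Wf_zero, fl_zero]
    exact (LL T).zero_mem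
  add_mem' := by
    rintro p p' ⟨Y, V, h⟩ ⟨Y', V', h'⟩
    refine ⟨Y + Y', V + V', ⟨?_, fun c => (h.ar c).add (h'.ar c), fun c b b' hb => ?_⟩⟩
    · change fl (Wf (p.1 + p'.1) _ _) ∈ LL T
      rw [Wf_add, fl_add]
      exact (LL T).add_mem h.mem h'.mem
    · rw [Pi.add_apply, Matrix.add_apply, h.lnk c b b' hb, h'.lnk c b b' hb, add_zero]
  smul_mem' := by
    rintro a p ⟨Y, V, h⟩
    refine ⟨a • Y, a • V, ⟨?_, fun c => (h.ar c).smul a, fun c b b' hb => ?_⟩⟩
    · change fl (Wf (a • p.1) _ _) ∈ LL T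
      rw [Wf_smul, fl_smul]
      exact (LL T).smul_mem a h.mem
    · rw [Pi.smul_apply, Matrix.smul_apply, h.lnk c b b' hb, smul_zero]

theorem Azf.br {z z' : Matrix M M ℂ} {x x' : LT C R Empty} {Y Y' : ∀ c, Matrix (B c) (B c) ℂ}
    {V V' : ∀ c, R c → Matrix (B c) (B c) ℂ} (hC : ∀ c, Bi (d c) (Cc c)) (hN : ∀ c, Deg1 (d c) (N c))
    (h : Azf T d o Cc N NB z x Y V) (h' : Azf T d o Cc N NB z' x' Y' V') :
    Azf T d o Cc N NB (z * z' - z' * z) (br x x') (fun c => Y c * Y' c - Y' c * Y c) (bV Y Y' V V') where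
  mem := by
    rw [← Wf_br]
    exact LL_br h.mem h'.mem
  ar := fun c => (h.ar c).br (hC c) (hN c) (h'.ar c)
  lnk := fun c b b' hb => by
    rw [Matrix.sub_apply, Pool.Agent.KS6_11.G.lkO_mul (h.ar c).low (h'.ar c).low (h.lnk c) (h'.lnk c) 0 b b' hb,
      Pool.Agent.KS6_11.G.lkO_mul (h'.ar c).low (h.ar c).low (h'.lnk c) (h.lnk c) 0 b b' hb, sub_zero]

/-- the period matrix -/
def pmf (C₀ : Matrix M M ℂ) (d : ∀ c, B c → ℕ) (Cc : ∀ c, Matrix (B c) (B c) ℂ)
    (ell : ∀ c, R c → Matrix (B c) (B c) ℂ) : Matrix (Nf M B R) (Nf M B R) ℂ :=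
  fromBlocks C₀ 0 0 (blockDiagonal' fun c =>
    fromBlocks (Cc c) 0 0 (blockDiagonal fun r => Cc c * ex (d c) (ell c r)))

/-- **Closedness.** -/
theorem cd_Lf (H : ∀ c, Fn (d c) (o c) (N c) (NB c) (Cc c) (D.P c) (D.P' c)) (hT : IsSubtorsor QB T) (hG : GDef QQ T)
    (hC₀ : IsUnit C₀) (hspl : ∀ c b b', d c b' = d c b + 1 → Cc c b b' = 0) (hell : ∀ c r, ell c r ∈ nn (N c))
    (hell1 : ∀ c r, ell c r - nbv (N c) (D.U c r) ∈ Ge (d c) 2) (hP : pmf C₀ d Cc ell ∈ T) :
    Cd C₀ D (Lf T d o Cc N NB) where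
  br := by
    rintro z z' x x' ⟨Y, V, h⟩ ⟨Y', V', h'⟩
    exact ⟨_, _, h.br (fun c => (H c).bi) (fun c => (H c).hN) h'⟩
  map := by
    rintro f z x ⟨Y, V, h⟩
    refine ⟨_, _, ⟨?_, fun c => (h.ar c).map (H c).bet (H c).rat f, fun c b b' hb => ?_⟩⟩
    · change fl (Wf (z.map f) _ _) ∈ LL T
      rw [← Wf_map (map_zero f) (map_add f)]
      exact (LL_defF hT hG hP).map f h.mem
    · rw [Matrix.map_apply, h.lnk c b b' hb, map_zero]
  der := by
    intro δ
    have hexx : ∀ c r, ex (d c) (ell c r) * ex (d c) (-ell c r) = 1 := fun c r =>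
      ex_mul_neg (nn_Ge (H c).hN (hell c r))
    have hC₀' : C₀ * C₀⁻¹ = 1 := Matrix.mul_nonsing_inv _ ((Matrix.isUnit_iff_isUnit_det _).1 hC₀)
    refine ⟨fun c => (Cc c).map (dB δ) * (Cc c)⁻¹, fun c r => Cc c * ((ex (d c) (ell c r)).map (dB δ) *
      ex (d c) (-ell c r)) * (Cc c)⁻¹, ⟨?_, fun c => der_ar (H c) (hell c) (hell1 c) (dB δ), fun c => ?_⟩⟩
    · have h1 := logder_mem hT (derD δ QB fun x hx => (QB_iff x).2 hx) hP
      have h2 : (pmf C₀ d Cc ell)⁻¹ = fromBlocks C₀⁻¹ 0 0 (blockDiagonal' fun c =>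
          fromBlocks (Cc c)⁻¹ 0 0 (blockDiagonal fun r => ex (d c) (-ell c r) * (Cc c)⁻¹)) := by
        refine Matrix.inv_eq_right_inv ?_
        unfold pmf
        rw [fromBlocks_multiply, ← blockDiagonal'_mul]
        simp only [Matrix.mul_zero, Matrix.zero_mul, add_zero, zero_add]
        rw [hC₀']
        have h3 : (fun c => fromBlocks (Cc c) 0 0 (blockDiagonal fun r => Cc c * ex (d c) (ell c r)) *
            fromBlocks (Cc c)⁻¹ 0 0 (blockDiagonal fun r => ex (d c) (-ell c r) * (Cc c)⁻¹)) =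
            (1 : ∀ c, Matrix (Iy B R c) (Iy B R c) ℂ) := by
          funext c
          rw [fromBlocks_multiply]
          simp only [Matrix.mul_zero, Matrix.zero_mul, add_zero, zero_add]
          rw [(H c).bi.mul_inv, ← blockDiagonal_mul]
          have h4 : (fun r => Cc c * ex (d c) (ell c r) * (ex (d c) (-ell c r) * (Cc c)⁻¹)) =
              (1 : R c → Matrix (B c) (B c) ℂ) := by
            funext r
            rw [Matrix.mul_assoc, ← Matrix.mul_assoc (ex (d c) (ell c r)), hexx, Matrix.one_mul, (H c).bi.mul_inv]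
            rfl
          rw [h4, blockDiagonal_one, fromBlocks_one]
          rfl
        rw [h3, blockDiagonal'_one, fromBlocks_one]
      rw [h2] at h1
      refine (congrArg (fun X => fl X ∈ LL T) ?_).mp h1
      unfold pmf Wf qt
      have hD0 : (derD δ QB fun x hx => (QB_iff x).2 hx) 0 = 0 := map_zero _
      rw [fromBlocks_map, blockDiagonal'_map _ _ hD0, Matrix.map_zero _ hD0, Matrix.map_zero _ hD0,
        fromBlocks_multiply, ← blockDiagonal'_mul]
      simp only [Matrix.mul_zero, Matrix.zero_mul, add_zero, zero_add]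
      congr 2
      funext c
      rw [fromBlocks_map, blockDiagonal_map _ _ hD0, Matrix.map_zero _ hD0, Matrix.map_zero _ hD0,
        fromBlocks_multiply, ← blockDiagonal_mul]
      simp only [Matrix.mul_zero, Matrix.zero_mul, add_zero, zero_add]
      congr 2
      funext r
      have h3 : (Cc c * ex (d c) (ell c r)).map (derD δ QB fun x hx => (QB_iff x).2 hx) =
          (Cc c).map δ * ex (d c) (ell c r) + Cc c * (ex (d c) (ell c r)).map δ := map_mul_D δ _ _
      rw [h3, Matrix.add_mul]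
      congr 1
      · rw [Matrix.mul_assoc, ← Matrix.mul_assoc (ex (d c) (ell c r)), hexx, Matrix.one_mul]
        rfl
      · simp only [Matrix.mul_assoc]
        rfl
    · exact (Lk_O (M := M) (C₀ := C₀) (H c).bi (hspl c)).der (dB δ)

end Pool.Agent.KS6_11.E
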