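import Pool.Agent.KS6_11.E.Mn

set_option autoImplicit false
set_option linter.unusedVariables false
set_option linter.unusedSectionVars false
set_option linter.unusedSimpArgs false

/-!
# The kernel of the first projection, and the exceptional curves
-/

open scoped PeriodPair
open Matrix Module

noncomputable section

namespace Pool.Agent.KS6_11.E

open Pool.Agent.TH127.PT Pool.Agent.Y123.ST Pool.Agent.TH119.DR Pool.Agent.TH119.MX Pool.Agent.X306.EM
  Pool.Agent.X306.RL W245.EB H667R3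

variable {C : Type} [Fintype C] [DecidableEq C] {R : C → Type} [∀ c, Fintype (R c)]
  [∀ c, DecidableEq (R c)] {J : Type} [Fintype J] [DecidableEq J] {M : Type} [Fintype M] [DecidableEq M]

variable {C₀ : Matrix M M ℂ} {D : Per C R J}

/-- the kernel of the first projection -/
def Kn (C₀ : Matrix M M ℂ) (D : Per C R J) : Submodule ℂ (LT C R J) :=
  (Mn C₀ D).comap (LinearMap.inr ℂ (Matrix M M ℂ) (LT C R J))

theorem mem_Kn {x : LT C R J} : x ∈ Kn C₀ D ↔ ((0 : Matrix M M ℂ), x) ∈ Mn C₀ D := Iff.rfl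

theorem Kn_br {x k : LT C R J} (hx : x ∈ Sn C₀ D) (hk : k ∈ Kn C₀ D) : br x k ∈ Kn C₀ D := by
  obtain ⟨y, h⟩ := mem_Sn.1 hx
  have h1 := cd_Mn.br h (mem_Kn.1 hk)
  rw [Matrix.mul_zero, Matrix.zero_mul, sub_zero] at h1
  exact h1

section

variable (hfull : ∀ x : LT C R J, (∀ c, (x.1 c).trace = x.2.2.1) → x ∈ Sn C₀ D)

include hfull

theorem single_mem (c : C) {x : M2} (hx : x.trace = 0) : ((Pi.single c x, 0, 0, 0) : LT C R J) ∈ Sn C₀ D := by
  refine hfull _ fun c' => ?_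
  change (Pi.single (M := fun _ : C => M2) c x c').trace = 0
  by_cases h : c' = c
  · subst h
    rw [Pi.single_eq_same, hx]
  · rw [Pi.single_eq_of_ne h, Matrix.trace_zero]

theorem comp_all (c : C) {k : LT C R J} (hk : k ∈ Kn C₀ D) (h0 : q0 (k.1 c) ≠ 0) {x : M2} (hx : x.trace = 0) :
    ∃ k ∈ Kn C₀ D, q0 (k.1 c) = x := by
  have h1 := ideal_top (I := (Kn C₀ D).map (prq c)) ?_ ?_ ⟨k, hk, rfl⟩ h0 x hx
  · obtain ⟨k', hk', e⟩ := h1
    exact ⟨k', hk', e⟩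
  · rintro _ ⟨k', _, rfl⟩
    exact trace_q0 _
  · rintro _ ⟨k', hk', rfl⟩ y hy
    refine ⟨-br (Pi.single c y, 0, 0, 0) k', (Kn C₀ D).neg_mem (Kn_br (single_mem hfull c hy) hk'), ?_⟩
    have h2 : q0 ((br (Pi.single c y, 0, 0, 0) k').1 c) = y * q0 (k'.1 c) - q0 (k'.1 c) * y := by
      rw [q0_of_trace, brs1q c hy]
      rw [brs1, Matrix.trace_sub, Matrix.trace_mul_comm, sub_self]
    rw [map_neg, prq_apply, h2, neg_sub]
    rfl

theorem comp_mem (c : C) {k : LT C R J} (hk : k ∈ Kn C₀ D) (h0 : q0 (k.1 c) ≠ 0) {x : M2} (hx : x.trace = 0) :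
    ∃ b : (c : C) → Matrix (R c) (Fin 2) ℂ, ((Pi.single c x, b, 0, 0) : LT C R J) ∈ Kn C₀ D := by
  have h1 : ∀ x : M2, x.trace = 0 → ∃ k ∈ Kn C₀ D, q0 (k.1 c) = x := fun x hx => comp_all hfull c hk h0 hx
  have h2 : ∀ x : M2, x.trace = 0 → ∃ k ∈ Kn C₀ D, k.1 c = x ∧ (∀ c', c' ≠ c → k.1 c' = 0) ∧ k.2.2.1 = 0 := by
    intro x hx
    obtain ⟨ke, hke, he⟩ := h1 se tr_se
    obtain ⟨kf, hkf, hf⟩ := h1 sf tr_sf
    refine ⟨x 0 0 • br (Pi.single c se, 0, 0, 0) kf + (x 0 1 / 2) • br (Pi.single c sh, 0, 0, 0) ke +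
        (-(x 1 0 / 2)) • br (Pi.single c sh, 0, 0, 0) kf,
      (Kn C₀ D).add_mem ((Kn C₀ D).add_mem ((Kn C₀ D).smul_mem _ (Kn_br (single_mem hfull c tr_se) hkf))
        ((Kn C₀ D).smul_mem _ (Kn_br (single_mem hfull c tr_sh) hke)))
        ((Kn C₀ D).smul_mem _ (Kn_br (single_mem hfull c tr_sh) hkf)), ?_, ?_, ?_⟩
    · change x 0 0 • (br (Pi.single c se, 0, 0, 0) kf).1 c + (x 0 1 / 2) • (br (Pi.single c sh, 0, 0, 0) ke).1 c +
        (-(x 1 0 / 2)) • (br (Pi.single c sh, 0, 0, 0) kf).1 c = x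
      rw [brs1q c tr_se, brs1q c tr_sh, brs1q c tr_sh, he, hf]
      exact (decomp hx).symm
    · intro c' hc'
      change x 0 0 • (br (Pi.single c se, 0, 0, 0) kf).1 c' + (x 0 1 / 2) • (br (Pi.single c sh, 0, 0, 0) ke).1 c' +
        (-(x 1 0 / 2)) • (br (Pi.single c sh, 0, 0, 0) kf).1 c' = 0
      rw [brs0 hc', brs0 hc', brs0 hc']
      simp
    · change x 0 0 * 0 + (x 0 1 / 2) * 0 + (-(x 1 0 / 2)) * 0 = (0 : ℂ)
      ring
  obtain ⟨ke, hke, e1, e2, e3⟩ := h2 se tr_se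
  obtain ⟨kf, hkf, f1, f2, f3⟩ := h2 sf tr_sf
  obtain ⟨k', hk'⟩ : ∃ k', k' = x 0 0 • br (Pi.single c se, 0, 0, 0) kf + (x 0 1 / 2) • br (Pi.single c sh, 0, 0, 0) ke +
      (-(x 1 0 / 2)) • br (Pi.single c sh, 0, 0, 0) kf := ⟨_, rfl⟩
  have hkK : k' ∈ Kn C₀ D := by
    rw [hk']
    exact (Kn C₀ D).add_mem ((Kn C₀ D).add_mem ((Kn C₀ D).smul_mem _ (Kn_br (single_mem hfull c tr_se) hkf))
      ((Kn C₀ D).smul_mem _ (Kn_br (single_mem hfull c tr_sh) hke)))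
      ((Kn C₀ D).smul_mem _ (Kn_br (single_mem hfull c tr_sh) hkf))
  refine ⟨k'.2.1, ?_⟩
  have h3 : k' = (Pi.single c x, k'.2.1, 0, 0) := by
    refine Prod.ext (funext fun c' => ?_) (Prod.ext rfl (Prod.ext ?_ (funext fun j => ?_)))
    · rw [hk']
      change x 0 0 • (br (Pi.single c se, 0, 0, 0) kf).1 c' + (x 0 1 / 2) • (br (Pi.single c sh, 0, 0, 0) ke).1 c' +
        (-(x 1 0 / 2)) • (br (Pi.single c sh, 0, 0, 0) kf).1 c' = Pi.single (M := fun _ : C => M2) c x c'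
      by_cases h : c' = c
      · subst h
        rw [brs1, brs1, brs1, e1, f1, Pi.single_eq_same]
        exact (decomp hx).symm
      · rw [brs0 h, brs0 h, brs0 h, Pi.single_eq_of_ne h]
        simp
    · rw [hk']
      change x 0 0 * 0 + (x 0 1 / 2) * 0 + (-(x 1 0 / 2)) * 0 = (0 : ℂ)
      ring
    · rw [hk']
      change x 0 0 * (0 * kf.2.2.1 - kf.2.2.2 j * 0) + (x 0 1 / 2) * (0 * ke.2.2.1 - ke.2.2.2 j * 0) +
        (-(x 1 0 / 2)) * (0 * kf.2.2.1 - kf.2.2.2 j * 0) = (0 : ℂ)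
      ring
  rw [← h3]
  exact hkK

/-- **The kernel.** -/
theorem Kn_full (hk : ∀ c, ∃ k ∈ Kn C₀ D, q0 (k.1 c) ≠ 0) {x : C → M2} (hx : ∀ c, (x c).trace = 0)
    (b : (c : C) → Matrix (R c) (Fin 2) ℂ) : ((x, b, 0, 0) : LT C R J) ∈ Kn C₀ D := by
  have h1 : ∀ x : C → M2, (∀ c, (x c).trace = 0) → ∃ b, ((x, b, 0, 0) : LT C R J) ∈ Kn C₀ D := by
    intro x hx
    choose k hk1 hk2 using hk
    choose b hb using fun c => comp_mem hfull c (hk1 c) (hk2 c) (hx c)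
    refine ⟨∑ c, b c, ?_⟩
    rw [← sum_pi]
    exact (Kn C₀ D).sum_mem fun c _ => hb c
  have h2 : ∀ b : (c : C) → Matrix (R c) (Fin 2) ℂ, ((0, b, 0, 0) : LT C R J) ∈ Kn C₀ D := by
    intro b
    obtain ⟨b', hb'⟩ := h1 (fun _ => sh) fun _ => tr_sh
    have h3 := Kn_br (hfull ((0, fun c => b c * sh, 0, 0) : LT C R J) fun c => Matrix.trace_zero _ _) hb'
    refine (congrArg (· ∈ Kn C₀ D) ?_).mp h3
    refine Prod.ext (funext fun c => ?_) (Prod.ext (funext fun c => ?_) (Prod.ext rfl (funext fun j => ?_)))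
    · change (0 : M2) * sh - sh * 0 = 0
      rw [Matrix.mul_zero, Matrix.zero_mul, sub_self]
    · change b c * sh * sh - b' c * 0 = b c
      rw [Matrix.mul_assoc, sh_sq, Matrix.mul_one, Matrix.mul_zero, sub_zero]
    · change (0 : ℂ) * 0 - 0 * 0 = 0
      ring
  obtain ⟨b', hb'⟩ := h1 x hx
  have h3 := (Kn C₀ D).add_mem hb' (h2 (b - b'))
  refine (congrArg (· ∈ Kn C₀ D) ?_).mp h3
  refine Prod.ext (add_zero _) (Prod.ext (add_sub_cancel _ _) (Prod.ext (add_zero _) (add_zero _)))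

end

/-- the periods of one curve -/
def D1 (L : PeriodPair) : Per Unit (fun _ => Empty) Empty :=
  pers (fun _ => L) (fun _ (r : Empty) => r.elim) (fun j : Empty => j.elim)

/-- the curve is exceptional: the kernel has no component in `sl₂` -/
def Exc (C₀ : Matrix M M ℂ) (L : PeriodPair) : Prop := ∀ x ∈ Kn C₀ (D1 L), q0 (x.1 ()) = 0

/-- restriction to one curve -/
def rs (M : Type) [Fintype M] (R : C → Type) (J : Type) (c : C) :
    (Matrix M M ℂ × LT C R J) →ₗ[ℂ] (Matrix M M ℂ × LT Unit (fun _ => Empty) Empty) where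
  toFun p := (p.1, fun _ => p.2.1 c, fun _ => Matrix.of fun (r : Empty) _ => r.elim, p.2.2.2.1, fun j => j.elim)
  map_add' p q := by
    refine Prod.ext rfl (Prod.ext rfl (Prod.ext (funext fun _ => ?_) (Prod.ext rfl (funext fun j => j.elim))))
    ext r
    exact r.elim
  map_smul' a p := by
    refine Prod.ext rfl (Prod.ext rfl (Prod.ext (funext fun _ => ?_) (Prod.ext rfl (funext fun j => j.elim))))
    ext r
    exact r.elim

theorem ne_family {L : C → PeriodPair} {u : (c : C) → R c → ℂ} {l : J → ℂ} {c : C} (h : ¬ Exc C₀ (L c)) :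
    ∃ k ∈ Kn C₀ (pers L u l), q0 (k.1 c) ≠ 0 := by
  unfold Exc at h
  push Not at h
  obtain ⟨x, hx, h1⟩ := h
  have hcd : Cd C₀ (D1 (L c)) ((Mn C₀ (pers L u l)).map (rs M R J c)) :=
    { br := by
        intro a a' b b' hab hab'
        obtain ⟨⟨z, x⟩, h, e⟩ := hab
        obtain ⟨⟨z', x'⟩, h', e'⟩ := hab'
        have e1 : z = a := congrArg Prod.fst e
        have e2 : (rs M R J c (z, x)).2 = b := congrArg Prod.snd e
        have e3 : z' = a' := congrArg Prod.fst e'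
        have e4 : (rs M R J c (z', x')).2 = b' := congrArg Prod.snd e'
        rw [← e1, ← e2, ← e3, ← e4]
        refine ⟨_, cd_Mn.br h h', ?_⟩
        refine Prod.ext rfl (Prod.ext rfl (Prod.ext (funext fun _ => ?_) (Prod.ext rfl (funext fun j => j.elim))))
        ext r
        exact r.elim
      map := by
        intro f a b hab
        obtain ⟨⟨z, x⟩, h, e⟩ := hab
        have e1 : z = a := congrArg Prod.fst e
        have e2 : (rs M R J c (z, x)).2 = b := congrArg Prod.snd e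
        rw [← e1, ← e2]
        refine ⟨_, cd_Mn.map f h, ?_⟩
        refine Prod.ext rfl (Prod.ext rfl (Prod.ext (funext fun _ => ?_) (Prod.ext rfl (funext fun j => j.elim))))
        ext r
        exact r.elim
      der := by
        intro δ
        refine ⟨_, cd_Mn.der δ, ?_⟩
        refine Prod.ext rfl (Prod.ext rfl (Prod.ext (funext fun _ => ?_) (Prod.ext rfl (funext fun j => j.elim))))
        ext r
        exact r.elim }
  obtain ⟨⟨z, x'⟩, h2, e⟩ := Mn_le hcd (mem_Kn.1 hx)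
  have e1 : z = 0 := congrArg Prod.fst e
  have e2 : x'.1 c = x.1 () := congrFun (congrArg (fun p => p.2.1) e) ()
  refine ⟨x', ?_, ?_⟩
  · rw [mem_Kn, ← e1]
    exact h2
  · rw [e2]
    exact h1

/-- exceptional curves occur in the endomorphisms -/
theorem cpl_of_exc {L : PeriodPair} (h2 : IsAlgebraic ℚ L.g₂) (h3 : IsAlgebraic ℚ L.g₃)
    (hCM : ∀ α : ℂ, (∀ w ∈ L.lattice, α * w ∈ L.lattice) → ∃ n : ℤ, α = n) (h0 : IsUnit C₀) (h : Exc C₀ L) :
    ∃ Γ, Cpl QQ QB C₀ ((D1 L).P ()) ((D1 L).P' ()) Γ := by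
  have hfull : ∀ x : LT Unit (fun _ => Empty) Empty, (∀ c, (x.1 c).trace = x.2.2.1) → x ∈ Sn C₀ (D1 L) :=
    fun x hx => Sn_full (fun _ => h2) (fun _ => h3) (fun _ => hCM)
      (fun c c' hcc => absurd (Subsingleton.elim c c') hcc) (fun c r => r.elim) (fun c n _ => funext fun r => r.elim)
      (fun j => j.elim) (fun n _ => funext fun r => r.elim) h0 hx
  refine ⟨(Mn C₀ (D1 L)).map (prc M (fun _ => Empty) Empty ()), ?_, ?_, ?_, ?_, ?_, ?_⟩
  · rintro x ⟨⟨y, x'⟩, h1, e⟩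
    rw [prc_apply, Prod.mk.injEq] at e
    obtain ⟨e1, e2⟩ := e
    simp only at e1 e2
    rw [e1] at h1
    rw [← e2]
    exact h x' h1
  · rintro p ⟨⟨y, x'⟩, h1, rfl⟩
    exact trace_q0 _
  · intro x hx
    obtain ⟨y, hy⟩ := mem_Sn.1 (single_mem hfull () hx)
    refine ⟨y, (y, (Pi.single () x, 0, 0, 0)), hy, ?_⟩
    rw [prc_apply]
    change (y, q0 (Pi.single (M := fun _ : Unit => M2) () x ())) = (y, x)
    rw [Pi.single_eq_same, q0_of_trace hx]
  · rintro p ⟨⟨y, x⟩, h1, rfl⟩ q ⟨⟨y', x'⟩, h1', rfl⟩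
    refine ⟨_, cd_Mn.br h1 h1', ?_⟩
    rw [prc_apply, prc_apply, prc_apply]
    simp only
    rw [q0_br]
  · rintro f p ⟨⟨y, x⟩, h1, rfl⟩
    refine ⟨_, cd_Mn.map f h1, ?_⟩
    rw [prc_apply, prc_apply]
    exact Prod.ext rfl (q0_map f _)
  · rintro f p ⟨⟨y, x⟩, h1, rfl⟩
    refine ⟨_, Mn_K h0 h1 f, ?_⟩
    rw [prc_apply, prc_apply]
    refine Prod.ext rfl ?_
    change q0 ((D1 L).P () * ((D1 L).P' () * x.1 () * (D1 L).P ()).map f * (D1 L).P' ()) =
      (D1 L).P () * ((D1 L).P' () * q0 (x.1 ()) * (D1 L).P ()).map f * (D1 L).P' ()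
    rw [q0_conj ((D1 L).PP' ()) ((D1 L).P'P ()), q0_map, q0_conj ((D1 L).P'P ()) ((D1 L).PP' ())]

/-- **The number of the exceptional curves.** -/
theorem exc_fin {ι : Type} (L : ι → PeriodPair) (hg : ∀ i, IsAlgebraic ℚ (L i).g₂ ∧ IsAlgebraic ℚ (L i).g₃)
    (hCM : ∀ i, ∀ α : ℂ, (∀ w ∈ (L i).lattice, α * w ∈ (L i).lattice) → ∃ n : ℤ, α = n)
    (hiso : ∀ i i', i ≠ i' → ∀ α : ℂ, (∀ w ∈ (L i).lattice, α * w ∈ (L i').lattice) → α = 0) (h0 : IsUnit C₀) :
    ∃ E : Finset ι, 2 * E.card ≤ Fintype.card M ∧ ∀ i, i ∉ E → ¬ Exc C₀ (L i) := by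
  classical
  have hcard : ∀ F : Finset ι, (F : Set ι) ⊆ {i | Exc C₀ (L i)} → 2 * F.card ≤ Fintype.card M := by
    intro F hF
    choose Γ hΓ using fun c : F => cpl_of_exc (hg c).1 (hg c).2 (hCM c) h0 (hF c.2)
    have h2 := Pool.Agent.KS6_11.S.card_cpl (C := F) (L := fun c => L c) (fun c => (hg c).1) (fun c => (hg c).2)
      (fun c => hCM c) (fun c c' hcc => hiso c c' fun h => hcc (Subtype.ext h)) h0 (fun c => (D1 (L c)).P' ())
      (fun c => (D1 (L c)).PP' ()) Γ hΓ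
    rwa [Fintype.card_coe] at h2
  have hfin : {i | Exc C₀ (L i)}.Finite := by
    by_contra hcon
    obtain ⟨F, hF1, hF2⟩ := Set.Infinite.exists_subset_card_eq hcon (Fintype.card M + 1)
    have h1 := hcard F hF1
    omega
  exact ⟨hfin.toFinset, hcard _ (fun i hi => by simpa using hi),
    fun i hi h => hi ((Set.Finite.mem_toFinset hfin).2 h)⟩

end Pool.Agent.KS6_11.E
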