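import Pool.Agent.KS6_11.E.Ridx

set_option autoImplicit false
set_option linter.unusedVariables false
set_option linter.unusedSectionVars false
set_option linter.unusedSimpArgs false
set_option synthInstance.maxSize 1000

/-!
# The main theorem for families of elliptic curves
-/

open Matrix Module

noncomputable section

namespace Pool.Agent.KS6_11.E

open Pool.Agent.W516.DR Pool.Agent.W245.EB Pool.Agent.Y102
open Pool.Agent.TH127.PT Pool.Agent.TH119.DR Pool.Agent.Y123.ST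
open Pool.Agent.TH119.MX (Per LT br mp lam M2 Leg)
open Pool.Agent.X306.EM (QB_iff QQ mem_QQ QQ_le)
open Pool.Agent.X306.RL (LL_br derD LL_defF GDef)
open Pool.Agent.X306.MT
open Pool.Agent.X306.MZ (InK)
open Pool.Agent.X306.CV hiding Elt EE EE.add EE.smul EE.op EE.poly rho_lead raise top_elt mm mm_br mm_full all_mem main
open Pool.Agent.KS6_11.G (Ar Fn lkO Lk_O Lk qz q0 Az all_mem small_O)
open Pool.Agent.KS6_11 (fb_ee fb_sum)

/-- from elements of the Lie algebra to elements of the group -/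
theorem stab_of_mem {M B R : Type} [Fintype M] [DecidableEq M] [Fintype B] [DecidableEq B] [Fintype R] [DecidableEq R]
    {d : B → ℕ} {C : Matrix B B ℂ} {N : Fin 2 → Matrix B B ℂ} {T : Set (Matrix (M ⊕ (B ⊕ (B × R))) (M ⊕ (B ⊕ (B × R))) ℂ)}
    (hT : IsSubtorsor QB T) (hb : Bi d C) (hN : Deg1 d N) {n : R → Matrix B B ℂ} (hn : ∀ r, n r ∈ nn N)
    (hE : fl (q0 M 0 (fun r => C * n r * C⁻¹)) ∈ LL T)
    {x : Matrix (M ⊕ (B ⊕ (B × R))) (M ⊕ (B ⊕ (B × R))) ℂ} (hx : x ∈ T) :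
    fromBlocks 1 0 0 (fromBlocks 1 0 0 (blockDiagonal fun r => C * ex d (n r) * C⁻¹)) * x ∈ T := by
  unfold Pool.Agent.KS6_11.G.q0 Pool.Agent.KS6_11.G.qz qt at hE
  simp only [zero_add] at hE
  set V : R → Matrix B B ℂ := fun r => C * n r * C⁻¹ with hV
  have hV1 : ∀ r, V r ∈ Ge d 1 := fun r => nB_Ge hb hN (conj_nB hb (hn r))
  obtain ⟨m, hm⟩ : ∃ m, top d = m + 1 := ⟨top d - 1, by
    have : 0 < top d := Nat.succ_pos _
    omega⟩
  have hsum : ∑ k ∈ Finset.range (m + 1), ee (fromBlocks 0 0 0 (fromBlocks 0 0 0 (blockDiagonal V)) :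
      Matrix (M ⊕ (B ⊕ (B × R))) (M ⊕ (B ⊕ (B × R))) ℂ) k =
      fromBlocks 1 0 0 (fromBlocks 1 0 0 (blockDiagonal fun r => ex d (V r))) := by
    have h1 := fb_sum (M := M) (W := (fromBlocks 0 0 0 (blockDiagonal V) : Matrix (B ⊕ (B × R)) (B ⊕ (B × R)) ℂ)) m
    rw [bd_sum, ← hm] at h1
    rw [← hm]
    exact h1
  have h4 := exp_mem hT hE (m := m) (by
    have h1 := fb_ee (M := M) (W := (fromBlocks 0 0 0 (blockDiagonal V) : Matrix (B ⊕ (B × R)) (B ⊕ (B × R)) ℂ)) m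
    rw [bd_ee, ← hm] at h1
    have h2 : (fun r => ee (V r) (top d)) = 0 := by
      funext r
      exact ee_top (hV1 r) le_rfl
    rw [h2, blockDiagonal_zero, fromBlocks_zero, fromBlocks_zero] at h1
    rw [← hm]
    exact h1) hx (by
    rw [hsum]
    refine IsUnit.mul ?_ (hT.isUnit x hx)
    refine IsUnit.of_mul_eq_one (fromBlocks 1 0 0 (fromBlocks 1 0 0 (blockDiagonal fun r => ex d (-V r)))) ?_
    rw [fromBlocks_multiply, fromBlocks_multiply]
    simp only [Matrix.mul_zero, Matrix.zero_mul, add_zero, zero_add, Matrix.one_mul]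
    rw [← blockDiagonal_mul]
    have h3 : (fun r => ex d (V r) * ex d (-V r)) = (1 : R → Matrix B B ℂ) := by
      funext r
      exact ex_mul_neg (hV1 r)
    rw [h3, blockDiagonal_one, fromBlocks_one, fromBlocks_one])
  rw [hsum] at h4
  refine (congrArg (· ∈ T) ?_).mp h4
  congr 4
  funext r
  exact ex_conj hb (n r)

variable {M C : Type} [Fintype M] [DecidableEq M] [Fintype C] [DecidableEq C] {R B : C → Type} [∀ c, Fintype (R c)]
  [∀ c, DecidableEq (R c)] [∀ c, Fintype (B c)] [∀ c, DecidableEq (B c)]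

/-- the index set of the other blocks -/
abbrev Mo (M : Type) (B R : C → Type) (c₀ : C) : Type := M ⊕ (Σ c : {c // c ≠ c₀}, Iy B R c.1)

/-- the bijection -/
def eqv (M : Type) (B R : C → Type) (c₀ : C) : Nf M B R ≃ Mo M B R c₀ ⊕ Iy B R c₀ where
  toFun := Sum.elim (fun i => Sum.inl (Sum.inl i))
    (fun p => if h : p.1 = c₀ then Sum.inr (h ▸ p.2) else Sum.inl (Sum.inr ⟨⟨p.1, h⟩, p.2⟩))
  invFun := Sum.elim (Sum.elim Sum.inl (fun p => Sum.inr ⟨p.1.1, p.2⟩)) (fun y => Sum.inr ⟨c₀, y⟩)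
  left_inv := by
    rintro (i | ⟨c, i⟩)
    · rfl
    · by_cases h : c = c₀
      · subst h
        simp
      · simp [h]
  right_inv := by
    rintro ((i | ⟨⟨c, hc⟩, i⟩) | i)
    · rfl
    · simp [hc]
    · simp

/-- block diagonal matrices -/
theorem sub_eqv (c₀ : C) (z : Matrix M M ℂ) (F : ∀ c, Matrix (Iy B R c) (Iy B R c) ℂ) :
    (fromBlocks z 0 0 (blockDiagonal' F) : Matrix (Nf M B R) (Nf M B R) ℂ).submatrix (eqv M B R c₀).symm
      (eqv M B R c₀).symm =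
      fromBlocks (fromBlocks z 0 0 (blockDiagonal' fun c : {c // c ≠ c₀} => F c.1)) 0 0 (F c₀) := by
  ext i j
  rcases i with (i | ⟨c, i⟩) | i
  · rcases j with (j | ⟨c', j⟩) | j
    · rfl
    · rfl
    · rfl
  · rcases j with (j | ⟨c', j⟩) | j
    · rfl
    · change blockDiagonal' F ⟨c.1, i⟩ ⟨c'.1, j⟩ = blockDiagonal' (fun c : {c // c ≠ c₀} => F c.1) ⟨c, i⟩ ⟨c', j⟩
      by_cases h : c = c'
      · subst h
        rw [blockDiagonal'_apply_eq, blockDiagonal'_apply_eq]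
      · rw [blockDiagonal'_apply_ne _ _ _ (fun h' => h (Subtype.ext h')), blockDiagonal'_apply_ne _ _ _ h]
    · change blockDiagonal' F ⟨c.1, i⟩ ⟨c₀, j⟩ = 0
      rw [blockDiagonal'_apply_ne _ _ _ c.2]
  · rcases j with (j | ⟨c', j⟩) | j
    · rfl
    · change blockDiagonal' F ⟨c₀, i⟩ ⟨c'.1, j⟩ = 0
      rw [blockDiagonal'_apply_ne _ _ _ (Ne.symm c'.2)]
    · change blockDiagonal' F ⟨c₀, i⟩ ⟨c₀, j⟩ = F c₀ i j
      rw [blockDiagonal'_apply_eq]

theorem sub_back {N N' : Type} (e : N ≃ N') {x : Matrix N N ℂ} {y : Matrix N' N' ℂ}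
    (h : x.submatrix e.symm e.symm = y) : y.submatrix e e = x := by
  rw [← h]
  ext i j
  simp

variable {T : Set (Matrix (Nf M B R) (Nf M B R) ℂ)} {d : ∀ c, B c → ℕ} {o : ∀ c, B c}
    {Cc : ∀ c, Matrix (B c) (B c) ℂ} {N NB : ∀ c, Fin 2 → Matrix (B c) (B c) ℂ} {C₀ : Matrix M M ℂ}
    {D : Per C R Empty} {ell : ∀ c, R c → Matrix (B c) (B c) ℂ}

/-- the elements of the Lie algebra of the transported set -/
theorem mem_tr (c₀ : C) {z : Matrix M M ℂ} {Y : ∀ c, Matrix (B c) (B c) ℂ} {V : ∀ c, R c → Matrix (B c) (B c) ℂ}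
    (h : fl (Wf z Y V) ∈ LL T) :
    fl (qz (fromBlocks z 0 0 (blockDiagonal' fun c : {c // c ≠ c₀} => qt (Y c.1) (V c.1))) (Y c₀) (V c₀)) ∈
      LL (Tr (eqv M B R c₀) T) := by
  rw [LL_Tr]
  have h1 := sub_back (eqv M B R c₀) (sub_eqv c₀ z fun c => qt (Y c) (V c))
  have h2 : (qz (fromBlocks z 0 0 (blockDiagonal' fun c : {c // c ≠ c₀} => qt (Y c.1) (V c.1))) (Y c₀) (V c₀)).submatrix
      (eqv M B R c₀) (eqv M B R c₀) = Wf z Y V := h1
  rw [h2]
  exact h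

/-- the stability under the group of one curve -/
theorem stab_one (H : ∀ c, Fn (d c) (o c) (N c) (NB c) (Cc c) (D.P c) (D.P' c)) (hT : IsSubtorsor QB T)
    (hcd : Cd C₀ D (Lf T d o Cc N NB))
    (hSn : ∀ x : LT C R Empty, (∀ c, (x.1 c).trace = x.2.2.1) → x ∈ Sn C₀ D)
    (hK : ∀ x : C → M2, (∀ c, (x c).trace = 0) → ∀ b : (c : C) → Matrix (R c) (Fin 2) ℂ,
      ((x, b, 0, 0) : LT C R Empty) ∈ Kn C₀ D) (c₀ : C) {n : R c₀ → Matrix (B c₀) (B c₀) ℂ}
    (hn : ∀ r, n r ∈ nn (N c₀)) {x : Matrix (Nf M B R) (Nf M B R) ℂ} (hx : x ∈ T) :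
    fromBlocks 1 0 0 (blockDiagonal' (Pi.mulSingle c₀ (fromBlocks 1 0 0 (blockDiagonal fun r =>
      Cc c₀ * ex (d c₀) (n r) * (Cc c₀)⁻¹)))) * x ∈ T := by
  -- the scalar element
  obtain ⟨z, hz⟩ := mem_Sn.1 (hSn (fun _ => 1, 0, 2, 0) fun c => by
    change (1 : M2).trace = 2
    rw [Matrix.trace_one]
    simp)
  obtain ⟨YZ, VZ, hZ⟩ := Mn_le hcd hz
  have hZ' : Az (Tr (eqv M B R c₀) T) (d c₀) (o c₀) (Cc c₀) (N c₀) (NB c₀) (lkO (d c₀))
      (fromBlocks z 0 0 (blockDiagonal' fun c : {c // c ≠ c₀} => qt (YZ c.1) (VZ c.1))) (1 : M2)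
      (fun r => (0 : Matrix (R c₀) (Fin 2) ℂ) r) (YZ c₀) (VZ c₀) :=
    ⟨mem_tr c₀ hZ.mem, hZ.lnk c₀, hZ.ar c₀⟩
  have hD : Dat (d c₀) (o c₀) (NB c₀) (pr (d c₀) 0 (YZ c₀)) (1 : M2) 1 := by
    refine ⟨(H c₀).hNB, pr_Gr 0 _, com_pr (H c₀).hNB hZ'.ar.low hZ'.ar.com, fun b => ?_, (H c₀).dgo,
      (H c₀).uni, (H c₀).gen, fun t ht v hv => ?_, one_ne_zero⟩
    · rw [pr_apply]
      split_ifs with hb
      · exact hZ'.ar.ori b (by rw [hb, (H c₀).dgo])
      · rfl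
    · rw [Matrix.vecMul_one] at hv
      have h1 : (1 - t) • v = 0 := by
        rw [sub_smul, one_smul, ← hv, sub_self]
      refine (smul_eq_zero.1 h1).resolve_left fun h2 => ht ?_
      have h3 : t = 1 := (sub_eq_zero.1 h2).symm
      rw [h3, Complex.one_re]
  have hA : ∀ y : R c₀ → Fin 2 → ℂ, ∃ Y V, Az (Tr (eqv M B R c₀) T) (d c₀) (o c₀) (Cc c₀) (N c₀) (NB c₀) (lkO (d c₀))
      (0 : Matrix (Mo M B R c₀) (Mo M B R c₀) ℂ) 0 y Y V ∧ Y ∈ Ge (d c₀) 2 := by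
    intro y
    obtain ⟨Y, V, h1, h2, h3⟩ := conc H hcd hK c₀ (X := 0) (Matrix.trace_zero _ _) y
    have h4 := mem_tr c₀ h1
    have e1 : (fun c : {c // c ≠ c₀} => qt ((Pi.single c₀ Y : ∀ c, Matrix (B c) (B c) ℂ) c.1)
        ((Pi.single c₀ V : ∀ c, R c → Matrix (B c) (B c) ℂ) c.1)) = 0 := by
      funext c
      rw [Pi.single_eq_of_ne c.2, Pi.single_eq_of_ne c.2]
      exact qt_zero
    rw [e1, blockDiagonal'_zero, fromBlocks_zero, Pi.single_eq_same, Pi.single_eq_same] at h4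
    have h5 : Az (Tr (eqv M B R c₀) T) (d c₀) (o c₀) (Cc c₀) (N c₀) (NB c₀) (lkO (d c₀))
      (0 : Matrix (Mo M B R c₀) (Mo M B R c₀) ℂ) 0 y Y V := ⟨h4, h3, h2⟩
    exact ⟨Y, V, h5, small_O (H c₀) h5⟩
  have hE := all_mem (H c₀) hZ' hD hA hn
  have hT' := Tr_sub (eqv M B R c₀) hT
  have hx' : x.submatrix (eqv M B R c₀).symm (eqv M B R c₀).symm ∈ Tr (eqv M B R c₀) T := by
    rw [mem_Tr, sub_back _ rfl]
    exact hx
  have h1 := stab_of_mem hT' (H c₀).bi (H c₀).hN hn hE hx'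
  rw [mem_Tr, sub_mul, sub_back _ rfl] at h1
  refine (congrArg (fun g => g * x ∈ T) ?_).mp h1
  refine sub_back (eqv M B R c₀) ?_
  rw [sub_eqv, Pi.mulSingle_eq_same]
  have e2 : (fun c : {c // c ≠ c₀} => (Pi.mulSingle c₀ (fromBlocks 1 0 0 (blockDiagonal fun r =>
      Cc c₀ * ex (d c₀) (n r) * (Cc c₀)⁻¹)) : ∀ c, Matrix (Iy B R c) (Iy B R c) ℂ) c.1) = 1 := by
    funext c
    rw [Pi.mulSingle_eq_of_ne c.2]
    rfl
  rw [e2, blockDiagonal'_one, fromBlocks_one]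

/-- **The main theorem.** -/
theorem mainE (H : ∀ c, Fn (d c) (o c) (N c) (NB c) (Cc c) (D.P c) (D.P' c)) (hT : IsSubtorsor QB T) (hG : GDef QQ T)
    (hC₀ : IsUnit C₀) (hspl : ∀ c b b', d c b' = d c b + 1 → Cc c b b' = 0) (hell : ∀ c r, ell c r ∈ nn (N c))
    (hell1 : ∀ c r, ell c r - nbv (N c) (D.U c r) ∈ Ge (d c) 2) (hP : pmf C₀ d Cc ell ∈ T)
    (hSn : ∀ x : LT C R Empty, (∀ c, (x.1 c).trace = x.2.2.1) → x ∈ Sn C₀ D)
    (hk : ∀ c, ∃ k ∈ Kn C₀ D, Pool.Agent.TH119.MX.q0 (k.1 c) ≠ 0) {n : ∀ c, R c → Matrix (B c) (B c) ℂ}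
    (hn : ∀ c r, n c r ∈ nn (N c)) {x : Matrix (Nf M B R) (Nf M B R) ℂ} (hx : x ∈ T) :
    fromBlocks 1 0 0 (blockDiagonal' fun c => fromBlocks 1 0 0 (blockDiagonal fun r =>
      Cc c * ex (d c) (n c r) * (Cc c)⁻¹)) * x ∈ T := by
  have hcd := cd_Lf H hT hG hC₀ hspl hell hell1 hP
  have hK : ∀ x : C → M2, (∀ c, (x c).trace = 0) → ∀ b : (c : C) → Matrix (R c) (Fin 2) ℂ,
      ((x, b, 0, 0) : LT C R Empty) ∈ Kn C₀ D := fun x hx b => Kn_full hSn hk hx b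
  have key : ∀ s : Finset C, ∀ x ∈ T, fromBlocks 1 0 0 (blockDiagonal' fun c => if c ∈ s then
      (fromBlocks 1 0 0 (blockDiagonal fun r => Cc c * ex (d c) (n c r) * (Cc c)⁻¹) :
        Matrix (Iy B R c) (Iy B R c) ℂ) else 1) * x ∈ T := by
    intro s
    induction s using Finset.induction_on with
    | empty =>
      intro x hx
      have e : (fun c => if c ∈ (∅ : Finset C) then
          (fromBlocks 1 0 0 (blockDiagonal fun r => Cc c * ex (d c) (n c r) * (Cc c)⁻¹) :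
            Matrix (Iy B R c) (Iy B R c) ℂ) else 1) = 1 := by
        funext c
        rw [if_neg (Finset.notMem_empty _)]
        rfl
      rw [e, blockDiagonal'_one, fromBlocks_one, Matrix.one_mul]
      exact hx
    | insert a s ha ih =>
      intro x hx
      have h1 := stab_one H hT hcd hSn hK a (hn a) (ih x hx)
      rw [← Matrix.mul_assoc, fromBlocks_multiply] at h1
      simp only [Matrix.mul_zero, Matrix.zero_mul, add_zero, zero_add, Matrix.one_mul] at h1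
      rw [← blockDiagonal'_mul] at h1
      refine (congrArg (fun g => fromBlocks 1 0 0 (blockDiagonal' g) * x ∈ T) ?_).mp h1
      funext c
      by_cases hc : c = a
      · subst hc
        rw [Pi.mulSingle_eq_same, if_neg ha, if_pos (Finset.mem_insert_self _ _), Matrix.mul_one]
      · rw [Pi.mulSingle_eq_of_ne hc, Matrix.one_mul]
        simp [hc]
  have h1 := key Finset.univ x hx
  simpa using h1

end Pool.Agent.KS6_11.E
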