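import Pool.Agent.KS6_11.E.Dst

set_option autoImplicit false
set_option linter.unusedVariables false
set_option linter.unusedSectionVars false
set_option linter.unusedSimpArgs false

/-!
# The smallest Lie algebra of an arbitrary object and the 1-motives of elliptic curves
-/

open scoped PeriodPair
open Matrix Module

noncomputable section

namespace Pool.Agent.KS6_11.E

open Pool.Agent.TH127.PT Pool.Agent.Y123.ST Pool.Agent.TH119.DR Pool.Agent.TH119.MX Pool.Agent.X306.EM Pool.Agent.X306.RL W245.EB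
  H667R3

variable {C : Type} [Fintype C] [DecidableEq C] {R : C → Type} [∀ c, Fintype (R c)]
  [∀ c, DecidableEq (R c)] {J : Type} [Fintype J] [DecidableEq J] {M : Type} [Fintype M] [DecidableEq M]

/-- spaces of pairs which are closed under brackets and rational maps and contain the logarithmic derivatives -/
structure Cd (C₀ : Matrix M M ℂ) (D : Per C R J) (Λ : Submodule ℂ (Matrix M M ℂ × LT C R J)) : Prop where
  br : ∀ {z z' : Matrix M M ℂ} {x x' : LT C R J}, (z, x) ∈ Λ → (z', x') ∈ Λ → (z * z' - z' * z, br x x') ∈ Λ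
  map : ∀ (f : ℂ →ₗ[QQ] ℂ) {z : Matrix M M ℂ} {x : LT C R J}, (z, x) ∈ Λ → (z.map f, mp f x) ∈ Λ
  der : ∀ δ : Derivation ℚ ℂ ℂ, (C₀.map δ * C₀⁻¹, lam D δ) ∈ Λ

/-- the smallest one -/
def Mn (C₀ : Matrix M M ℂ) (D : Per C R J) : Submodule ℂ (Matrix M M ℂ × LT C R J) :=
  sInf {Λ | Cd C₀ D Λ}

variable {C₀ : Matrix M M ℂ} {D : Per C R J} {Λ : Submodule ℂ (Matrix M M ℂ × LT C R J)}

theorem Mn_le (H : Cd C₀ D Λ) : Mn C₀ D ≤ Λ := sInf_le H

theorem cd_Mn : Cd C₀ D (Mn C₀ D) where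
  br h h' := by
    unfold Mn at h h' ⊢
    rw [Submodule.mem_sInf] at h h' ⊢
    exact fun Λ hΛ => hΛ.br (h Λ hΛ) (h' Λ hΛ)
  map f _ _ h := by
    unfold Mn at h ⊢
    rw [Submodule.mem_sInf] at h ⊢
    exact fun Λ hΛ => hΛ.map f (h Λ hΛ)
  der δ := by
    unfold Mn
    rw [Submodule.mem_sInf]
    exact fun Λ hΛ => hΛ.der δ

/-- the derivation as a linear map -/
def dl (δ : Derivation ℚ ℂ ℂ) : ℂ →ₗ[QQ] ℂ := derK δ QQ fun x hx => (QB_iff x).2 (QQ_le hx)

theorem dl_apply (δ : Derivation ℚ ℂ ℂ) (x : ℂ) : dl δ x = δ x := rfl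

/-- the trace condition -/
theorem Mn_tr (hL : Leg D) {z : Matrix M M ℂ} {x : LT C R J} (h : (z, x) ∈ Mn C₀ D) (c : C) :
    (x.1 c).trace = x.2.2.1 := by
  let Λ : Submodule ℂ (Matrix M M ℂ × LT C R J) :=
    { carrier := {p | ∀ c, (p.2.1 c).trace = p.2.2.2.1}
      zero_mem' := fun c => Matrix.trace_zero _ _
      add_mem' := by
        intro p q hp hq c
        change (p.2.1 c + q.2.1 c).trace = p.2.2.2.1 + q.2.2.2.1
        rw [Matrix.trace_add, hp c, hq c]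
      smul_mem' := by
        intro a p hp c
        change (a • p.2.1 c).trace = a * p.2.2.2.1
        rw [Matrix.trace_smul, hp c, smul_eq_mul] }
  have hΛ : Cd C₀ D Λ :=
    { br := fun {z z' x x'} _ _ c => by
        change (x.1 c * x'.1 c - x'.1 c * x.1 c).trace = 0
        rw [Matrix.trace_sub, Matrix.trace_mul_comm, sub_self]
      map := fun f z x h c => by
        change ((x.1 c).map f).trace = f x.2.2.1
        have h1 : (x.1 c).trace = x.2.2.1 := h c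
        rw [← h1, Matrix.trace_fin_two, Matrix.trace_fin_two, map_add]
        rfl
      der := fun δ c => by
        change ((D.P c).map δ * D.P' c).trace = δ D.w / D.w
        obtain ⟨n, hn, hn2⟩ := hL c
        have h1 := tr_der δ (D.P'P c)
        have hdet : (D.P c).det ≠ 0 := by
          intro h
          have h2 := congrArg Matrix.det (D.PP' c)
          rw [Matrix.det_mul, h, zero_mul, Matrix.det_one] at h2
          exact zero_ne_one h2
        have hn0 : n ≠ 0 := by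
          rintro rfl
          rw [zero_mul] at hn2
          exact hdet hn2
        rw [hn2, Derivation.leibniz, deriv_alg δ hn, smul_zero, add_zero, smul_eq_mul] at h1
        rw [eq_div_iff D.w0]
        have h2 : n * (((D.P c).map δ * D.P' c).trace * D.w) = n * δ D.w := by
          rw [← h1]
          ring
        exact mul_left_cancel₀ hn0 h2 }
  exact Mn_le hΛ h c

/-- the components of block matrices -/
theorem Wm_inj {y y' : Matrix M M ℂ} {x x' : LT C R J} (h : Wm y x = Wm y' x') : y = y' ∧ x = x' := by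
  unfold Wm bm at h
  rw [fromBlocks_inj] at h
  obtain ⟨h1, _, _, h2⟩ := h
  rw [fromBlocks_inj] at h2
  obtain ⟨h3, _, _, h4⟩ := h2
  rw [fromBlocks_inj] at h4
  obtain ⟨h5, _, h6, _⟩ := h4
  have h7 : ∀ c, fromBlocks (x.1 c) 0 (x.2.1 c) ((0 : ℂ) • (1 : Matrix (R c) (R c) ℂ)) =
      fromBlocks (x'.1 c) 0 (x'.2.1 c) ((0 : ℂ) • 1) := fun c => by
    have := congrFun (Matrix.blockDiagonal'_inj.1 h3) c
    exact this
  refine ⟨h1, Prod.ext (funext fun c => ?_) (Prod.ext (funext fun c => ?_) (Prod.ext ?_ (funext fun j => ?_)))⟩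
  · exact ((fromBlocks_inj).1 (h7 c)).1
  · exact ((fromBlocks_inj).1 (h7 c)).2.2.1
  · exact congrFun (congrFun h5 ()) ()
  · exact congrFun (congrFun h6 j) ()

/-- the derivative of a conjugate -/
theorem der_conj (δ : Derivation ℚ ℂ ℂ) {N : Type} [Fintype N] [DecidableEq N] {A A' : Matrix N N ℂ}
    (h1 : A * A' = 1) (h1' : A' * A = 1) (w : Matrix N N ℂ) :
    (A' * w * A).map δ = A' * (w.map δ + (w * (A.map δ * A') - A.map δ * A' * w)) * A := by
  have hA' : A'.map δ = -(A' * A.map δ * A') := by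
    have h2 : (A' * A).map δ = 0 := by
      rw [h1']
      ext i j
      rw [Matrix.map_apply, Matrix.one_apply]
      split_ifs
      · exact δ.map_one_eq_zero
      · exact map_zero δ
    rw [Pool.Agent.KS6_11.S.map_mul_der'] at h2
    have h3 : A'.map δ * A = -(A' * A.map δ) := eq_neg_of_add_eq_zero_left h2
    calc A'.map δ = A'.map δ * A * A' := by rw [Matrix.mul_assoc, h1, Matrix.mul_one]
      _ = -(A' * A.map δ * A') := by rw [h3, Matrix.neg_mul]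
  rw [Pool.Agent.KS6_11.S.map_mul_der', Pool.Agent.KS6_11.S.map_mul_der', hA']
  have h4 : A' * (w.map δ + (w * (A.map δ * A') - A.map δ * A' * w)) * A =
      A' * w.map δ * A + A' * w * A.map δ * (A' * A) - A' * A.map δ * A' * w * A := by
    simp only [Matrix.mul_add, Matrix.add_mul, Matrix.mul_sub, Matrix.sub_mul, Matrix.mul_assoc]
    abel
  rw [h4, h1', Matrix.mul_one, Matrix.add_mul, Matrix.neg_mul, Matrix.neg_mul]
  abel

/-- **Rationality on the de Rham side.** -/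
theorem Mn_K (h0 : IsUnit C₀) {z : Matrix M M ℂ} {x : LT C R J} (h : (z, x) ∈ Mn C₀ D) (f : ℂ →ₗ[QB] ℂ) :
    (C₀ * (C₀⁻¹ * z * C₀).map f * C₀⁻¹, kapi D (mp f (kap D x))) ∈ Mn C₀ D := by
  classical
  have hcm : cm D C₀ * (cm D C₀)⁻¹ = 1 := by
    rw [cm_inv D h0]
    unfold cm cm'
    rw [fromBlocks_multiply, pm_pm', c0_inv h0]
    simp
  have hcm' : (cm D C₀)⁻¹ * cm D C₀ = 1 := mul_eq_one_comm.1 hcm
  let W : Submodule ℂ ((M ⊕ Ix C R J) × (M ⊕ Ix C R J) → ℂ) :=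
    { carrier := {v | ∃ z x, (z, x) ∈ Mn C₀ D ∧ v = fl ((cm D C₀)⁻¹ * Wm z x * cm D C₀)}
      zero_mem' := ⟨0, 0, (Mn C₀ D).zero_mem, by
        rw [Wm_zero, Matrix.mul_zero, Matrix.zero_mul, fl_zero]⟩
      add_mem' := by
        rintro _ _ ⟨z, x, h, rfl⟩ ⟨z', x', h', rfl⟩
        refine ⟨z + z', x + x', (Mn C₀ D).add_mem h h', ?_⟩
        rw [Wm_add, Matrix.mul_add, Matrix.add_mul, fl_add]
      smul_mem' := by
        rintro a _ ⟨z, x, h, rfl⟩
        refine ⟨a • z, a • x, (Mn C₀ D).smul_mem a h, ?_⟩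
        rw [Wm_smul, Matrix.mul_smul, Matrix.smul_mul, fl_smul] }
  have hW : DefOver QB W := by
    refine dst W ?_
    rintro δ _ ⟨z, x, h, rfl⟩
    refine ⟨_, _, (Mn C₀ D).add_mem (cd_Mn.map (dl δ) h) (cd_Mn.br h (cd_Mn.der δ)), ?_⟩
    have h1 := der_conj δ hcm hcm' (Wm z x)
    have h2 : (Wm z x).map δ = Wm (z.map (dl δ)) (mp (dl δ) x) := Wm_map (map_zero δ) z x
    rw [h2, cm_der D h0, Wm_br, ← Wm_add] at h1
    exact congrArg fl h1
  have h1 : fl ((cm D C₀)⁻¹ * Wm z x * cm D C₀) ∈ W := ⟨z, x, h, rfl⟩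
  have h2 := hW.map f h1
  obtain ⟨z', x', h3, h4⟩ := h2
  have h5 : ((cm D C₀)⁻¹ * Wm z x * cm D C₀).map f = (cm D C₀)⁻¹ * Wm z' x' * cm D C₀ := by
    ext i j
    exact congrFun h4 (i, j)
  rw [cm_conj D h0, Wm_map (map_zero f)] at h5
  have h6 : Wm z' x' = Wm (C₀ * (C₀⁻¹ * z * C₀).map f * C₀⁻¹) (kapi D (mp f (kap D x))) := by
    rw [← cm_conj' D h0, h5]
    exact (Pool.Agent.KS6_11.S.conj_conj hcm _).symm
  obtain ⟨e1, e2⟩ := Wm_inj h6
  rw [← e1, ← e2]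
  exact h3

/-- the projection -/
def Sn (C₀ : Matrix M M ℂ) (D : Per C R J) : Submodule ℂ (LT C R J) :=
  (Mn C₀ D).map (LinearMap.snd ℂ (Matrix M M ℂ) (LT C R J))

theorem mem_Sn {x : LT C R J} : x ∈ Sn C₀ D ↔ ∃ y, (y, x) ∈ Mn C₀ D := by
  constructor
  · rintro ⟨⟨y, x⟩, h, rfl⟩
    exact ⟨y, h⟩
  · rintro ⟨y, h⟩
    exact ⟨(y, x), h, rfl⟩

theorem good_Sn (h0 : IsUnit C₀) (hL : Leg D) : Good D QQ QB (Sn C₀ D) where
  htr x hx := by
    obtain ⟨y, h⟩ := mem_Sn.1 hx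
    exact Mn_tr hL h
  hbr x hx x' hx' := by
    obtain ⟨y, h⟩ := mem_Sn.1 hx
    obtain ⟨y', h'⟩ := mem_Sn.1 hx'
    exact mem_Sn.2 ⟨_, cd_Mn.br h h'⟩
  hF f x hx := by
    obtain ⟨y, h⟩ := mem_Sn.1 hx
    exact mem_Sn.2 ⟨_, cd_Mn.map f h⟩
  hK f x hx := by
    obtain ⟨y, h⟩ := mem_Sn.1 hx
    exact mem_Sn.2 ⟨_, Mn_K h0 h f⟩
  hder δ := mem_Sn.2 ⟨_, cd_Mn.der δ⟩

variable {L : C → PeriodPair}

/-- **The second projection is surjective.** -/
theorem Sn_full (h2 : ∀ c, IsAlgebraic ℚ (L c).g₂) (h3 : ∀ c, IsAlgebraic ℚ (L c).g₃)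
    (hCM : ∀ c, ∀ α : ℂ, (∀ w ∈ (L c).lattice, α * w ∈ (L c).lattice) → ∃ n : ℤ, α = n)
    (hiso : ∀ c c', c ≠ c' → ∀ α : ℂ, (∀ w ∈ (L c).lattice, α * w ∈ (L c').lattice) → α = 0)
    {u : (c : C) → R c → ℂ} (hu : ∀ c r, u c r ∉ (L c).lattice ∧ IsAlgebraic ℚ (℘[L c] (u c r)))
    (hui : ∀ c, ∀ n : R c → ℤ, ∑ r, (n r : ℂ) * u c r ∈ (L c).lattice → n = 0)
    {l : J → ℂ} (hl : ∀ j, IsAlgebraic ℚ (Complex.exp (l j)))
    (hli : ∀ n : J → ℤ, Complex.exp (∑ j, (n j : ℂ) * l j) = 1 → n = 0) (h0 : IsUnit C₀) {x : LT C R J}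
    (hx : ∀ c, (x.1 c).trace = x.2.2.1) : x ∈ Sn C₀ (pers L u l) := by
  have hI := pers_indep h2 h3 hCM hu hui hl hli
  have hS := good_Sn (C₀ := C₀) h0 (pers_leg L u l)
  have hKA : ∀ x : ℂ, IsAlgebraic ℚ x → x ∈ QB := fun x => (QB_iff x).1
  have hpair : ∀ c c', c ≠ c' → ∀ x : M2, x.trace = 0 →
      ∃ X ∈ Sn C₀ (pers L u l), q0 (X.1 c) = x ∧ q0 (X.1 c') = 0 :=
    fun c c' hcc x hx => pair_main h2 h3 hI hS (hiso c' c (Ne.symm hcc)) hx
  exact hS.main (fun c x hx => hS.iso' hI QQ_le sqc hKA hpair c hx) hI QQ_le hKA hx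

end Pool.Agent.KS6_11.E
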