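import Pool.Agent.KS6_11.E.Conc

set_option autoImplicit false
set_option linter.unusedVariables false
set_option linter.unusedSectionVars false
set_option linter.unusedSimpArgs false

/-!
# Subtorsors and bijections of the index sets
-/

open Matrix MvPolynomial

noncomputable section

namespace Pool.Agent.KS6_11.E

open Pool.Agent.TH127.PT Pool.Agent.TH119.DR Pool.Agent.Y123.ST

variable {N N' : Type} [Fintype N] [DecidableEq N] [Fintype N'] [DecidableEq N'] (e : N ≃ N')
  {T : Set (Matrix N N ℂ)} {K : Subfield ℂ}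

/-- the transported set -/
def Tr (T : Set (Matrix N N ℂ)) : Set (Matrix N' N' ℂ) := {x | x.submatrix e e ∈ T}

theorem mem_Tr {x : Matrix N' N' ℂ} : x ∈ Tr e T ↔ x.submatrix e e ∈ T := Iff.rfl

theorem sub_isUnit {x : Matrix N' N' ℂ} : IsUnit (x.submatrix e e) ↔ IsUnit x := by
  rw [Matrix.isUnit_iff_isUnit_det, Matrix.isUnit_iff_isUnit_det, Matrix.det_submatrix_equiv_self]

theorem sub_mul (x y : Matrix N' N' ℂ) : (x * y).submatrix e e = x.submatrix e e * y.submatrix e e :=
  (Matrix.submatrix_mul_equiv x y e e e).symm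

theorem sub_inv (x : Matrix N' N' ℂ) : (x⁻¹).submatrix e e = (x.submatrix e e)⁻¹ :=
  Matrix.inv_submatrix_equiv x e e |>.symm

theorem eval_ren (p : MvPolynomial (N × N) ℂ) (x : Matrix N' N' ℂ) :
    eval (fun b : N' × N' => x b.1 b.2) (rename (Prod.map e e) p) =
      eval (fun b : N × N => x.submatrix e e b.1 b.2) p := by
  rw [eval_rename]
  have h : (fun b : N' × N' => x b.1 b.2) ∘ Prod.map e e = fun b : N × N => x.submatrix e e b.1 b.2 := rfl
  rw [h]

theorem eval_fl (p : MvPolynomial (N × N) ℂ) (x : Matrix N' N' ℂ) :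
    eval (fl x) (rename (Prod.map e e) p) = eval (fl (x.submatrix e e)) p := eval_ren e p x

theorem Tr_sub (hT : IsSubtorsor K T) : IsSubtorsor K (Tr e T) where
  isUnit x hx := (sub_isUnit e).1 (hT.isUnit _ hx)
  torsor x hx y hy z hz := by
    rw [mem_Tr, sub_mul, sub_mul, sub_inv]
    exact hT.torsor _ hx _ hy _ hz
  algebraic := by
    obtain ⟨I, h1, h2⟩ := hT.algebraic
    refine ⟨(rename (Prod.map e e)) '' I, ?_, fun x => ?_⟩
    · rintro _ ⟨p, hp, rfl⟩ m
      by_cases hm : ∃ n : (N × N) →₀ ℕ, n.mapDomain (Prod.map e e) = m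
      · obtain ⟨n, rfl⟩ := hm
        rw [coeff_rename_mapDomain _ (e.injective.prodMap e.injective)]
        exact h1 p hp n
      · rw [coeff_rename_eq_zero _ _ _ fun u hu => absurd ⟨u, hu⟩ hm]
        exact K.zero_mem
    · rw [mem_Tr, h2, sub_isUnit]
      refine and_congr_right fun _ => ?_
      constructor
      · rintro h3 _ ⟨p, hp, rfl⟩
        exact (eval_ren e p x).trans (h3 p hp)
      · intro h3 p hp
        have h4 := h3 _ ⟨p, hp, rfl⟩
        exact (eval_ren e p x).symm.trans h4

theorem dd_rename {α β : Type} [Fintype α] [Fintype β] (f : α → β) (P : MvPolynomial α ℂ) (x v : β → ℂ) :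
    dd (rename f P) x v = dd P (fun a => x (f a)) (fun a => v (f a)) := by
  induction P using MvPolynomial.induction_on with
  | C a => rw [rename_C, dd_C, dd_C]
  | add p q hp hq => rw [map_add, dd_add, dd_add, hp, hq]
  | mul_X p b hp =>
    have h : eval x (rename f p) = eval (fun a => x (f a)) p := by
      rw [eval_rename]
      have h' : x ∘ f = fun a => x (f a) := rfl
      rw [h']
    rw [map_mul, rename_X, dd_mul, dd_mul, hp, dd_X, dd_X, eval_X, eval_X, h]

theorem LL_Tr {w : Matrix N' N' ℂ} : fl w ∈ LL (Tr e T) ↔ fl (w.submatrix e e) ∈ LL T := by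
  have hback : ∀ x : Matrix N N ℂ, (x.submatrix e.symm e.symm).submatrix e e = x := by
    intro x
    ext i j
    simp
  constructor
  · intro h P hP x hx
    have h1 := h (rename (Prod.map e e) P) (fun y hy => (eval_fl e P y).trans (hP _ hy))
      (x.submatrix e.symm e.symm) (by
      rw [mem_Tr, hback]
      exact hx)
    rw [dd_rename] at h1
    have h2 : (fun a => fl (x.submatrix e.symm e.symm) (Prod.map e e a)) = fl x := by
      funext a
      simp [fl]
    have h3 : (fun a => fl (um (fl w) * x.submatrix e.symm e.symm) (Prod.map e e a)) =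
        fl (um (fl (w.submatrix e e)) * x) := by
      rw [um_fl, um_fl]
      have h4 := sub_mul e w (x.submatrix e.symm e.symm)
      rw [hback] at h4
      rw [← h4]
      rfl
    rw [h2, h3] at h1
    exact h1
  · intro h P hP x hx
    have h1 := h (rename (Prod.map e.symm e.symm) P) (fun y hy => by
      refine (eval_fl e.symm P y).trans (hP (y.submatrix e.symm e.symm) ?_)
      rw [mem_Tr, hback]
      exact hy) (x.submatrix e e) hx
    rw [dd_rename] at h1
    have h2 : (fun a => fl (x.submatrix e e) (Prod.map e.symm e.symm a)) = fl x := by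
      funext a
      simp [fl]
    have h3 : (fun a => fl (um (fl (w.submatrix e e)) * x.submatrix e e) (Prod.map e.symm e.symm a)) =
        fl (um (fl w) * x) := by
      rw [um_fl, um_fl, ← sub_mul e w x]
      funext a
      simp [fl]
    rw [h2, h3] at h1
    exact h1

end Pool.Agent.KS6_11.E
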